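import Pool.Agent.Helper50.YL.Defs
import Pool.Agent.Helper50.YF.Clos

/-!
# YL-1: triangle inequality for geodesic balls
-/

namespace Pool.Agent.Helper50.YL

open scoped ContDiff Topology NNReal
open Pool.Agent.Helper49.Ric Pool.Agent.Helper73.HB Pool.Agent.Helper50.CF
  Pool.Agent.Helper50.CE Pool.Agent.Helper50.YF MeasureTheory Filter

noncomputable section

variable {n : ℕ} {u : (Fin n → ℝ) → ℝ} {U : Set (Fin n → ℝ)}
  {G : (Fin n → ℝ) → Matrix (Fin n) (Fin n) ℝ} {x p q : Fin n → ℝ} {r r' : ℝ}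

/-- the norm of the vector `v` at `p` -/
private def sp (G : (Fin n → ℝ) → Matrix (Fin n) (Fin n) ℝ) (p v : Fin n → ℝ) : ℝ :=
  Real.sqrt (∑ i, ∑ j, G p i j * v i * v j)

private theorem sp_smul (p v : Fin n → ℝ) {k : ℝ} (hk : 0 ≤ k) :
    sp G p (k • v) = sp G p v * k := by
  unfold sp
  have e : ∑ i, ∑ j, G p i j * (k • v) i * (k • v) j =
      (∑ i, ∑ j, G p i j * v i * v j) * (k * k) := by
    rw [Finset.sum_mul]
    refine Finset.sum_congr rfl fun i _ => ?_
    rw [Finset.sum_mul]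
    refine Finset.sum_congr rfl fun j _ => ?_
    simp only [Pi.smul_apply, smul_eq_mul]
    ring
  rw [e, Real.sqrt_mul' _ (mul_self_nonneg k), Real.sqrt_mul_self hk]

private theorem sp_cont (hG : IsMetricOn U G) {γ v : ℝ → Fin n → ℝ} (hγ : Continuous γ)
    (hv : Continuous v) {s : Set ℝ} (hs : ∀ t ∈ s, γ t ∈ U) :
    ContinuousOn (fun t => sp G (γ t) (v t)) s := by
  refine ContinuousOn.sqrt ?_
  refine continuousOn_finset_sum _ fun i _ => continuousOn_finset_sum _ fun j _ => ?_
  refine ContinuousOn.mul (ContinuousOn.mul ?_ ?_) ?_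
  · intro t ht
    have h1 : ContinuousAt (fun q => G q i j) (γ t) := (hG.smooth _ (hs t ht) i j).continuousAt
    exact (h1.comp hγ.continuousAt).continuousWithinAt
  · exact ((continuous_apply i).comp hv).continuousOn
  · exact ((continuous_apply j).comp hv).continuousOn

private theorem reparam (hG : IsMetricOn U G) {β δ : ℝ → Fin n → ℝ} (hβ : ContDiff ℝ 1 β)
    (hβU : ∀ t ∈ Set.Icc (0 : ℝ) 1, β t ∈ U) {g : ℝ → ℝ} (hg : ContDiff ℝ 1 g)
    (hg0 : ∀ t, 0 ≤ g t) (hg1 : ∀ t, g t ≤ 1) (hg' : ∀ t, 0 ≤ deriv g t) {a b : ℝ} (hab : a ≤ b)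
    (ha : g a = 0) (hb : g b = 1) (h1 : ∀ t ∈ Set.Icc a b, δ t = β (g t))
    (h2 : ∀ t ∈ Set.Icc a b, deriv δ t = deriv g t • deriv β (g t)) :
    ∫ t in a..b, sp G (δ t) (deriv δ t) = ∫ s in (0 : ℝ)..1, sp G (β s) (deriv β s) := by
  have e1 : ∫ t in a..b, sp G (δ t) (deriv δ t) =
      ∫ t in a..b, ((fun s => sp G (β s) (deriv β s)) ∘ g) t * deriv g t := by
    refine intervalIntegral.integral_congr fun t ht => ?_
    rw [Set.uIcc_of_le hab] at ht
    show sp G (δ t) (deriv δ t) = sp G (β (g t)) (deriv β (g t)) * deriv g t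
    rw [h1 t ht, h2 t ht, sp_smul _ _ (hg' t)]
  rw [e1, intervalIntegral.integral_comp_mul_deriv'', ha, hb]
  · exact hg.continuous.continuousOn
  · intro t _
    exact ((hg.differentiable one_ne_zero).differentiableAt.hasDerivAt).hasDerivWithinAt
  · exact (hg.continuous_deriv le_rfl).continuousOn
  · refine (sp_cont hG hβ.continuous (hβ.continuous_deriv le_rfl) hβU).mono ?_
    rintro _ ⟨t, _, rfl⟩
    exact ⟨hg0 t, hg1 t⟩

private theorem tr_deriv_nonneg (t : ℝ) : 0 ≤ deriv Real.smoothTransition t :=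
  Real.smoothTransition.monotone.deriv_nonneg

private theorem tr_deriv_left {t : ℝ} (ht : t ≤ 0) : deriv Real.smoothTransition t = 0 := by
  apply IsLocalMin.deriv_eq_zero
  refine Filter.Eventually.of_forall fun s => ?_
  rw [Real.smoothTransition.zero_of_nonpos ht]
  exact Real.smoothTransition.nonneg s

private theorem tr_deriv_right {t : ℝ} (ht : 1 ≤ t) : deriv Real.smoothTransition t = 0 := by
  apply IsLocalMax.deriv_eq_zero
  refine Filter.Eventually.of_forall fun s => ?_
  rw [Real.smoothTransition.one_of_one_le ht]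
  exact Real.smoothTransition.le_one s

/-- concatenation of curves -/
theorem gball_trans (hG : IsMetricOn U G) (hp : p ∈ gball U G x r) (hq : q ∈ gball U G p r') :
    q ∈ gball U G x (r + r') := by
  obtain ⟨γ, hγ, hγ0, hγ1, hγU, hlen⟩ := hp
  obtain ⟨σ, hσc, hσ0, hσ1, hσU, hlen'⟩ := hq
  have hθ : ContDiff ℝ 1 Real.smoothTransition := Real.smoothTransition.contDiff
  have hθd : ∀ s, HasDerivAt Real.smoothTransition (deriv Real.smoothTransition s) s := fun s =>
    ((hθ.differentiable one_ne_zero).differentiableAt).hasDerivAt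
  set g1 : ℝ → ℝ := fun t => Real.smoothTransition (2 * t) with hg1
  set g2 : ℝ → ℝ := fun t => Real.smoothTransition (2 * t - 1) with hg2
  have hg1c : ContDiff ℝ 1 g1 := hθ.comp (contDiff_const.mul contDiff_id)
  have hg2c : ContDiff ℝ 1 g2 := hθ.comp ((contDiff_const.mul contDiff_id).sub contDiff_const)
  have hg1d : ∀ t, HasDerivAt g1 (deriv Real.smoothTransition (2 * t) * 2) t := by
    intro t
    have h := (hasDerivAt_id t).const_mul (2 : ℝ)
    rw [mul_one] at h
    exact (hθd (2 * t)).comp t h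
  have hg2d : ∀ t, HasDerivAt g2 (deriv Real.smoothTransition (2 * t - 1) * 2) t := by
    intro t
    have h := ((hasDerivAt_id t).const_mul (2 : ℝ)).sub_const 1
    rw [mul_one] at h
    exact (hθd (2 * t - 1)).comp t h
  have hg1n : ∀ t, 0 ≤ deriv g1 t := fun t => by
    rw [(hg1d t).deriv]
    exact mul_nonneg (tr_deriv_nonneg _) (by norm_num)
  have hg2n : ∀ t, 0 ≤ deriv g2 t := fun t => by
    rw [(hg2d t).deriv]
    exact mul_nonneg (tr_deriv_nonneg _) (by norm_num)
  set δ : ℝ → Fin n → ℝ := fun t => γ (g1 t) + (σ (g2 t) - p) with hδ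
  have hδc : ContDiff ℝ 1 δ := (hγ.comp hg1c).add ((hσc.comp hg2c).sub contDiff_const)
  have hγd : ∀ s, HasDerivAt γ (deriv γ s) s := fun s =>
    ((hγ.differentiable one_ne_zero).differentiableAt).hasDerivAt
  have hσd : ∀ s, HasDerivAt σ (deriv σ s) s := fun s =>
    ((hσc.differentiable one_ne_zero).differentiableAt).hasDerivAt
  have hδd : ∀ t, deriv δ t = deriv g1 t • deriv γ (g1 t) + deriv g2 t • deriv σ (g2 t) := by
    intro t
    have h1 : HasDerivAt (fun t => γ (g1 t)) (deriv g1 t • deriv γ (g1 t)) t := by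
      rw [(hg1d t).deriv]
      exact HasDerivAt.scomp t (hγd (g1 t)) (hg1d t)
    have h2 : HasDerivAt (fun t => σ (g2 t) - p) (deriv g2 t • deriv σ (g2 t)) t := by
      rw [(hg2d t).deriv]
      exact (HasDerivAt.scomp t (hσd (g2 t)) (hg2d t)).sub_const p
    exact (h1.add h2).deriv
  have hL : ∀ t ≤ (1 / 2 : ℝ), δ t = γ (g1 t) := by
    intro t ht
    have h : g2 t = 0 := Real.smoothTransition.zero_of_nonpos (by linarith)
    show γ (g1 t) + (σ (g2 t) - p) = γ (g1 t)
    rw [h, hσ0, sub_self, add_zero]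
  have hR : ∀ t, (1 / 2 : ℝ) ≤ t → δ t = σ (g2 t) := by
    intro t ht
    have h : g1 t = 1 := Real.smoothTransition.one_of_one_le (by linarith)
    show γ (g1 t) + (σ (g2 t) - p) = σ (g2 t)
    rw [h, hγ1]
    abel
  have hg10 : ∀ t, 0 ≤ g1 t := fun t => Real.smoothTransition.nonneg _
  have hg11 : ∀ t, g1 t ≤ 1 := fun t => Real.smoothTransition.le_one _
  have hg20 : ∀ t, 0 ≤ g2 t := fun t => Real.smoothTransition.nonneg _
  have hg21 : ∀ t, g2 t ≤ 1 := fun t => Real.smoothTransition.le_one _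
  have hδU : ∀ t, δ t ∈ U := by
    intro t
    rcases le_total t (1 / 2) with ht | ht
    · rw [hL t ht]
      exact hγU _ ⟨hg10 t, hg11 t⟩
    · rw [hR t ht]
      exact hσU _ ⟨hg20 t, hg21 t⟩
  have hint : ∀ a b : ℝ, IntervalIntegrable (fun t => sp G (δ t) (deriv δ t)) volume a b := by
    intro a b
    exact (sp_cont hG hδc.continuous (hδc.continuous_deriv le_rfl)
      (fun t _ => hδU t)).intervalIntegrable
  have I1 : ∫ t in (0 : ℝ)..(1 / 2), sp G (δ t) (deriv δ t) =
      ∫ s in (0 : ℝ)..1, sp G (γ s) (deriv γ s) := by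
    refine reparam hG hγ hγU hg1c hg10 hg11 hg1n (by norm_num) ?_ ?_ ?_ ?_
    · show Real.smoothTransition (2 * 0) = 0
      exact Real.smoothTransition.zero_of_nonpos (by norm_num)
    · show Real.smoothTransition (2 * (1 / 2)) = 1
      exact Real.smoothTransition.one_of_one_le (by norm_num)
    · intro t ht
      exact hL t ht.2
    · intro t ht
      have h : deriv g2 t = 0 := by
        rw [(hg2d t).deriv, tr_deriv_left (by linarith [ht.2]), zero_mul]
      rw [hδd, h, zero_smul, add_zero]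
  have I2 : ∫ t in (1 / 2 : ℝ)..1, sp G (δ t) (deriv δ t) =
      ∫ s in (0 : ℝ)..1, sp G (σ s) (deriv σ s) := by
    refine reparam hG hσc hσU hg2c hg20 hg21 hg2n (by norm_num) ?_ ?_ ?_ ?_
    · show Real.smoothTransition (2 * (1 / 2) - 1) = 0
      exact Real.smoothTransition.zero_of_nonpos (by norm_num)
    · show Real.smoothTransition (2 * 1 - 1) = 1
      exact Real.smoothTransition.one_of_one_le (by norm_num)
    · intro t ht
      exact hR t ht.1
    · intro t ht
      have h : deriv g1 t = 0 := by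
        rw [(hg1d t).deriv, tr_deriv_right (by linarith [ht.1]), zero_mul]
      rw [hδd, h, zero_smul, zero_add]
  refine ⟨δ, hδc, ?_, ?_, fun t _ => hδU t, ?_⟩
  · rw [hL 0 (by norm_num)]
    have h : g1 0 = 0 := by
      show Real.smoothTransition (2 * 0) = 0
      exact Real.smoothTransition.zero_of_nonpos (by norm_num)
    rw [h, hγ0]
  · rw [hR 1 (by norm_num)]
    have h : g2 1 = 1 := by
      show Real.smoothTransition (2 * 1 - 1) = 1
      exact Real.smoothTransition.one_of_one_le (by norm_num)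
    rw [h, hσ1]
  · have e : curveLength G δ = (∫ t in (0 : ℝ)..(1 / 2), sp G (δ t) (deriv δ t)) +
        ∫ t in (1 / 2 : ℝ)..1, sp G (δ t) (deriv δ t) :=
      (intervalIntegral.integral_add_adjacent_intervals (hint _ _) (hint _ _)).symm
    rw [e, I1, I2]
    exact add_lt_add hlen hlen'

theorem GB_trans (hu : ContDiff ℝ ∞ u) {x z y : Fin n → ℝ} {s t : ℝ} (hz : z ∈ GB u x s)
    (hy : y ∈ GB u z t) : y ∈ GB u x (s + t) :=
  gball_trans (isMetricOn_conf hu) hz hy

end

end Pool.Agent.Helper50.YL
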