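import Pool.Agent.Helper50.YF.Mn

/-!
# YL: the local form of Yau's bound (no completeness): definitions

`u` smooth on `ℝⁿ`, `Ric ≥ 0` for `g = e^{2u}|dx|²`, and only the geodesic ball `B_{Λr}(x)` is relatively
compact.  `Far u z L`: the geodesic ball of radius `L` about `z` is relatively compact.  `good2` is
`YF.good` with `Psi` in place of `dd`.
-/

namespace Pool.Agent.Helper50.YL

open scoped ContDiff Topology NNReal
open Pool.Agent.Helper49.Ric Pool.Agent.Helper73.HB Pool.Agent.Helper50.CF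
  Pool.Agent.Helper50.CE Pool.Agent.Helper50.YF MeasureTheory Filter

noncomputable section

variable {n : ℕ} {u : (Fin n → ℝ) → ℝ}

/-- the geodesic ball of radius `L` about `z` is relatively compact -/
def Far (u : (Fin n → ℝ) → ℝ) (z : Fin n → ℝ) (L : ℝ) : Prop :=
  ∃ K : Set (Fin n → ℝ), IsCompact K ∧ GB u z L ⊆ K

/-- small mass and `Psi ≤ ρ` at `z` at the scale `2^j` -/
def good2 (u : (Fin n → ℝ) → ℝ) (ε ρ : ℝ) (z : Fin n → ℝ) (j : ℤ) : Prop :=
  ms u z (5 * n * 2 ^ j) ≤ ε ∧ Psi u z (20 * n * 2 ^ j) ≤ ρ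

/-- `Psi (λ s) ≤ λ Psi s` -/
theorem psi_scale (hu : Continuous u) (b : Fin n → ℝ) {s lam : ℝ} (hs : 0 ≤ s) (hl : 1 ≤ lam) :
    Psi u b (lam * s) ≤ lam * Psi u b s := by
  have h0 : (0 : ℝ) < lam := by linarith
  have h1 : Psi u b (lam * s) = lam * ∫ t in (0 : ℝ)..s, Real.exp (mn u b (lam * t)) := by
    unfold Psi
    have h2 := intervalIntegral.mul_integral_comp_mul_left (a := (0 : ℝ)) (b := s)
      (f := fun t => Real.exp (mn u b t)) lam
    rw [mul_zero] at h2
    exact h2.symm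
  rw [h1]
  refine mul_le_mul_of_nonneg_left ?_ h0.le
  unfold Psi
  refine intervalIntegral.integral_mono_on hs ?_ (psi_intervalIntegrable hu b le_rfl hs)
    fun t ht => Real.exp_le_exp.2 (mn_anti hu b ht.1 (by nlinarith [ht.1]))
  refine AntitoneOn.intervalIntegrable fun x hx y hy hxy => ?_
  rw [Set.uIcc_of_le hs] at hx hy
  exact Real.exp_le_exp.2 (mn_anti hu b (by nlinarith [hx.1]) (by nlinarith [hx.1]))

end

end Pool.Agent.Helper50.YL
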