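import Pool.Agent.Helper50.YF.Three

/-!
# YL-4: quasi-monotonicity of `dd u z`

PROOF. Suppose `dd u z r₂ < dd u z r₁ / 2`; then `r₁ < r₂`; let `D(t) = dd u z t > 0` and
`κ = log(D(r₁)/D(r₂)) / log(r₂/r₁) > 0`.  By `three_circles` (`log D(t) = log t + mn u z t` is concave in
`log t`): `D(t) ≤ D(r₂) (r₂/t)^κ` for `t ≥ r₂` and `D(t) ≥ D(r₂) (r₂/t)^κ` for `r₁ ≤ t ≤ r₂`.  As
`e^{mn u z t} = D(t)/t`: for `T ≥ r₂`,
`Psi T - Psi r₂ = ∫_{r₂}^T D(t) dt/t ≤ D(r₂)/κ` and
`Psi r₂ ≥ ∫_{r₁}^{r₂} D(t) dt/t ≥ D(r₂) ((r₂/r₁)^κ - 1)/κ ≥ D(r₂)/κ` since `(r₂/r₁)^κ = D(r₁)/D(r₂) > 2`.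
So `Psi T ≤ 2 Psi r₂` for all `T ≥ 0`, against `2 Psi r₂ < M ≤ Psi T`.
-/

namespace Pool.Agent.Helper50.YL

open scoped ContDiff Topology NNReal
open Pool.Agent.Helper49.Ric Pool.Agent.Helper73.HB Pool.Agent.Helper50.CF
  Pool.Agent.Helper50.CE Pool.Agent.Helper50.YF MeasureTheory Filter

noncomputable section

variable {n : ℕ} {u : (Fin n → ℝ) → ℝ}

/-- `log (dd u z t)` is concave in `log t` -/
private theorem logc (h : Flat n u) (z : Fin n → ℝ) {a b c : ℝ} (ha : 0 < a) (hab : a ≤ b)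
    (hbc : b ≤ c) :
    (Real.log a + mn u z a) * (Real.log c - Real.log b) +
        (Real.log c + mn u z c) * (Real.log b - Real.log a) ≤
      (Real.log b + mn u z b) * (Real.log c - Real.log a) := by
  have hb : 0 < b := ha.trans_le hab
  have hc : 0 < c := hb.trans_le hbc
  rcases hab.eq_or_lt with rfl | hab
  · exact le_of_eq (by ring)
  rcases hbc.eq_or_lt with rfl | hbc
  · exact le_of_eq (by ring)
  have h1 := three_circles h z ha hab hbc
  rw [Real.log_div hc.ne' hb.ne', Real.log_div hb.ne' ha.ne', Real.log_div hc.ne' ha.ne'] at h1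
  have h2 : Real.log a * (Real.log c - Real.log b) + Real.log c * (Real.log b - Real.log a) =
      Real.log b * (Real.log c - Real.log a) := by ring
  linarith

theorem quasi (h : Flat n u) (z : Fin n → ℝ) {M T r₁ r₂ : ℝ} (hT : 0 ≤ T) (hM : M ≤ Psi u z T)
    (h1 : 0 < r₁) (h2 : r₁ ≤ r₂) (h3 : 2 * Psi u z r₂ < M) :
    dd u z r₁ ≤ 2 * dd u z r₂ := by
  by_contra hcon
  push Not at hcon
  have hu : Continuous u := h.smooth.continuous
  have hr2 : 0 < r₂ := h1.trans_le h2
  have hD1 : 0 < dd u z r₁ := dd_pos u z h1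
  have hD2 : 0 < dd u z r₂ := dd_pos u z hr2
  have hlt : r₁ < r₂ := by
    rcases h2.eq_or_lt with e | l
    · rw [e] at hcon
      linarith
    · exact l
  set l₁ := Real.log r₁ with hl1
  set l₂ := Real.log r₂ with hl2
  have hl : l₁ < l₂ := Real.log_lt_log h1 hlt
  set e₁ := l₁ + mn u z r₁ with he1
  set e₂ := l₂ + mn u z r₂ with he2
  have hx1 : dd u z r₁ = Real.exp e₁ := by
    rw [he1, Real.exp_add, hl1, Real.exp_log h1]
    rfl
  have hx2 : dd u z r₂ = Real.exp e₂ := by
    rw [he2, Real.exp_add, hl2, Real.exp_log hr2]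
    rfl
  have he : e₂ < e₁ := by
    have h4 : Real.exp e₂ < Real.exp e₁ := by
      rw [← hx1, ← hx2]
      linarith
    exact Real.exp_lt_exp.1 h4
  set k := (e₁ - e₂) / (l₂ - l₁) with hk
  have hkpos : 0 < k := div_pos (by linarith) (by linarith)
  have hkl : k * (l₂ - l₁) = e₁ - e₂ := div_mul_cancel₀ _ (by linarith)
  -- the comparison function
  set g : ℝ → ℝ := fun t => Real.exp (e₂ + k * l₂) * t ^ (-k - 1) with hg
  have hgt : ∀ t, 0 < t → g t = Real.exp (e₂ + k * l₂ - (k + 1) * Real.log t) := by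
    intro t ht
    rw [hg]
    simp only
    rw [Real.rpow_def_of_pos ht, ← Real.exp_add]
    congr 1
    ring
  have hup : ∀ t, r₂ ≤ t → Real.exp (mn u z t) ≤ g t := by
    intro t ht
    have ht0 : 0 < t := hr2.trans_le ht
    rw [hgt t ht0, Real.exp_le_exp]
    have h4 := logc h z h1 h2 ht
    rw [← hl1, ← hl2, ← he1, ← he2] at h4
    have h5 : (Real.log t + mn u z t) * (l₂ - l₁) ≤
        (e₂ - k * (Real.log t - l₂)) * (l₂ - l₁) := by
      have h6 : (e₂ - k * (Real.log t - l₂)) * (l₂ - l₁) =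
          e₂ * (l₂ - l₁) - (k * (l₂ - l₁)) * (Real.log t - l₂) := by ring
      rw [h6, hkl]
      linarith
    have h7 := le_of_mul_le_mul_right h5 (by linarith)
    linarith
  have hlo : ∀ t, r₁ ≤ t → t ≤ r₂ → g t ≤ Real.exp (mn u z t) := by
    intro t ht1 ht2
    have ht0 : 0 < t := h1.trans_le ht1
    rw [hgt t ht0, Real.exp_le_exp]
    have h4 := logc h z h1 ht1 ht2
    rw [← hl1, ← hl2, ← he1, ← he2] at h4
    have h5 : (e₂ - k * (Real.log t - l₂)) * (l₂ - l₁) ≤
        (Real.log t + mn u z t) * (l₂ - l₁) := by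
      have h6 : (e₂ - k * (Real.log t - l₂)) * (l₂ - l₁) =
          e₂ * (l₂ - l₁) - (k * (l₂ - l₁)) * (Real.log t - l₂) := by ring
      rw [h6, hkl]
      linarith
    have h7 := le_of_mul_le_mul_right h5 (by linarith)
    linarith
  -- the integral of the comparison function
  have hgint : ∀ a b, 0 < a → a ≤ b → ∫ t in a..b, g t =
      Real.exp (e₂ + k * l₂) * (a ^ (-k) - b ^ (-k)) / k := by
    intro a b ha hab
    rw [hg]
    simp only
    rw [intervalIntegral.integral_const_mul, integral_rpow]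
    · have h4 : -k - 1 + 1 = -k := by ring
      rw [h4]
      field_simp
      ring
    · right
      refine ⟨by linarith, ?_⟩
      rw [Set.uIcc_of_le hab]
      intro h0
      linarith [h0.1]
  have hgii : ∀ a b, 0 < a → a ≤ b → IntervalIntegrable g volume a b := by
    intro a b ha hab
    refine ContinuousOn.intervalIntegrable ?_
    rw [Set.uIcc_of_le hab, hg]
    refine ContinuousOn.mul continuousOn_const ?_
    intro x hx
    exact (Real.continuousAt_rpow_const x _ (Or.inl (by linarith [hx.1]))).continuousWithinAt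
  have hp : ∀ a, 0 < a → Real.exp (e₂ + k * l₂) * a ^ (-k) =
      Real.exp (e₂ + k * l₂ - k * Real.log a) := by
    intro a ha
    rw [Real.rpow_def_of_pos ha, ← Real.exp_add]
    congr 1
    ring
  have hp2 : Real.exp (e₂ + k * l₂) * r₂ ^ (-k) = dd u z r₂ := by
    rw [hp r₂ hr2, hx2]
    congr 1
    rw [← hl2]
    ring
  have hp1 : Real.exp (e₂ + k * l₂) * r₁ ^ (-k) = dd u z r₁ := by
    rw [hp r₁ h1, hx1]
    congr 1
    rw [← hl1]
    linarith
  -- lower bound for `Psi r₂`
  have hlow : dd u z r₂ / k ≤ Psi u z r₂ := by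
    have h4 : Psi u z r₂ = (∫ t in (0 : ℝ)..r₁, Real.exp (mn u z t)) +
        ∫ t in r₁..r₂, Real.exp (mn u z t) := by
      unfold Psi
      exact (intervalIntegral.integral_add_adjacent_intervals
        (psi_intervalIntegrable hu z le_rfl h1.le)
        (psi_intervalIntegrable hu z h1.le hr2.le)).symm
    have h5 : 0 ≤ ∫ t in (0 : ℝ)..r₁, Real.exp (mn u z t) := psi_nonneg hu z h1.le
    have h6 : ∫ t in r₁..r₂, g t ≤ ∫ t in r₁..r₂, Real.exp (mn u z t) :=
      intervalIntegral.integral_mono_on h2 (hgii r₁ r₂ h1 h2)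
        (psi_intervalIntegrable hu z h1.le hr2.le) fun t ht => hlo t ht.1 ht.2
    rw [hgint r₁ r₂ h1 h2, mul_sub, hp1, hp2] at h6
    have h7 : dd u z r₂ / k ≤ (dd u z r₁ - dd u z r₂) / k :=
      div_le_div_of_nonneg_right (by linarith) hkpos.le
    linarith
  -- upper bound for `Psi T`
  have hupp : Psi u z T ≤ 2 * Psi u z r₂ := by
    rcases le_total T r₂ with hTr | hTr
    · have h4 := psi_mono hu z hT hTr
      have h5 := psi_nonneg hu z hr2.le
      linarith
    · have h4 : Psi u z T = (∫ t in (0 : ℝ)..r₂, Real.exp (mn u z t)) +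
          ∫ t in r₂..T, Real.exp (mn u z t) := by
        unfold Psi
        exact (intervalIntegral.integral_add_adjacent_intervals
          (psi_intervalIntegrable hu z le_rfl hr2.le)
          (psi_intervalIntegrable hu z hr2.le hT)).symm
      have h6 : ∫ t in r₂..T, Real.exp (mn u z t) ≤ ∫ t in r₂..T, g t :=
        intervalIntegral.integral_mono_on hTr (psi_intervalIntegrable hu z hr2.le hT)
          (hgii r₂ T hr2 hTr) fun t ht => hup t ht.1
      rw [hgint r₂ T hr2 hTr, mul_sub, hp2] at h6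
      have h7 : (dd u z r₂ - Real.exp (e₂ + k * l₂) * T ^ (-k)) / k ≤ dd u z r₂ / k := by
        refine div_le_div_of_nonneg_right ?_ hkpos.le
        have h8 : 0 ≤ Real.exp (e₂ + k * l₂) * T ^ (-k) :=
          mul_nonneg (Real.exp_pos _).le (Real.rpow_nonneg hT _)
        linarith
      have h9 : (∫ t in (0 : ℝ)..r₂, Real.exp (mn u z t)) = Psi u z r₂ := rfl
      linarith
  linarith

end

end Pool.Agent.Helper50.YL
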