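import Pool.Agent.Helper50.YL.VolA
import Pool.Agent.Helper50.YL.Quasi
import Pool.Agent.Helper50.YL.Defs

/-!
# YL-11: the volume of a geodesic ball bounds `dd u z s ^ (n-1) r`

Sum the volumes of the annuli (`exists_volAnn`) at the scales `4^k s`, `k < N`, `N` the first index with
`Psi u z (3·4^N s) ≥ 12 r`; `dd u z s ≤ 2 dd u z (3·4^k s)` (`quasi`) and
`∑ 3 dd u z (3·4^k s) ≥ Psi u z (3·4^N s) - Psi u z (3s) ≥ 6 r`.
-/

namespace Pool.Agent.Helper50.YL

open scoped ContDiff Topology NNReal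
open Pool.Agent.Helper49.Ric Pool.Agent.Helper73.HB Pool.Agent.Helper50.CF
  Pool.Agent.Helper50.CE Pool.Agent.Helper50.YF MeasureTheory Filter

noncomputable section

variable {n : ℕ} {u : (Fin n → ℝ) → ℝ}

/-- the increment of `Psi` over `[3·4^k s, 3·4^(k+1) s]` -/
private theorem psi_step (hu : Continuous u) (z : Fin n → ℝ) {t : ℝ} (ht : 0 < t) :
    Psi u z (4 * t) - Psi u z t ≤ 3 * dd u z t := by
  rw [psi_diff hu z ht.le (by linarith)]
  have h1 : ∫ x in t..(4 * t), Real.exp (mn u z x) ≤ ∫ _x in t..(4 * t), Real.exp (mn u z t) := by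
    refine intervalIntegral.integral_mono_on (by linarith)
      (psi_intervalIntegrable hu z ht.le (by linarith)) intervalIntegrable_const fun x hx => ?_
    exact Real.exp_le_exp.2 (mn_anti hu z ht.le hx.1)
  refine h1.trans (le_of_eq ?_)
  rw [intervalIntegral.integral_const, smul_eq_mul]
  unfold dd
  ring

theorem exists_volSum (n : ℕ) (hn : 3 ≤ n) : ∃ c L : ℝ, 0 < c ∧ 1 ≤ L ∧
    ∀ {u : (Fin n → ℝ) → ℝ}, Flat n u → ∀ (z : Fin n → ℝ) {s r T : ℝ}, 0 < s → 0 < r →
      Psi u z s ≤ 2 * r → 0 ≤ T → 24 * r ≤ Psi u z T → Far u z (L * r) →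
        c * dd u z s ^ (n - 1) * r ≤ ev u (GB u z (L * r)) := by
  obtain ⟨c, L, hc, hL, hA⟩ := exists_volAnn n hn
  refine ⟨c * 2 * (2 ^ (n - 1))⁻¹, 12 * L, by positivity, by linarith, ?_⟩
  intro u hu z s r T hs hr hPs hT hPT hF
  have huc := hu.smooth.continuous
  -- the first index
  have hex : ∃ N : ℕ, 12 * r ≤ Psi u z (3 * 4 ^ N * s) := by
    obtain ⟨N, hN⟩ : ∃ N : ℕ, T / (3 * s) < 4 ^ N := pow_unbounded_of_one_lt _ (by norm_num)
    refine ⟨N, ?_⟩
    rw [div_lt_iff₀ (by positivity)] at hN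
    have h1 : Psi u z T ≤ Psi u z (3 * 4 ^ N * s) :=
      psi_mono huc z hT (by linarith [hN, show (4 : ℝ) ^ N * (3 * s) = 3 * 4 ^ N * s by ring])
    linarith
  classical
  set N := Nat.find hex with hN
  have hN1 : 12 * r ≤ Psi u z (3 * 4 ^ N * s) := Nat.find_spec hex
  have hN2 : ∀ k < N, Psi u z (3 * 4 ^ k * s) < 12 * r := fun k hk =>
    not_le.1 (Nat.find_min hex hk)
  -- the sum
  have htel : ∀ M : ℕ, Psi u z (3 * 4 ^ M * s) - Psi u z (3 * s) ≤
      ∑ k ∈ Finset.range M, 3 * dd u z (3 * 4 ^ k * s) := by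
    intro M
    induction M with
    | zero => simp
    | succ M ih =>
      rw [Finset.sum_range_succ]
      have h1 := psi_step huc z (t := 3 * 4 ^ M * s) (by positivity)
      rw [show 4 * (3 * 4 ^ M * s) = 3 * 4 ^ (M + 1) * s by rw [pow_succ]; ring] at h1
      linarith
  have hP3 : Psi u z (3 * s) ≤ 6 * r := by
    have := psi_scale huc z hs.le (by norm_num : (1 : ℝ) ≤ 3)
    linarith
  have hsum : 2 * r ≤ ∑ k ∈ Finset.range N, dd u z (3 * 4 ^ k * s) := by
    have h1 := htel N
    rw [← Finset.mul_sum] at h1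
    linarith
  -- the annuli
  have h4 : ∀ k : ℕ, (0 : ℝ) < 4 ^ k * s := fun k => by positivity
  set E : ℕ → Set (Fin n → ℝ) := fun k => GB u z (12 * L * r) ∩ Ann z (4 ^ k * s) with hE
  have hGBo := isOpen_GB hu.smooth z (12 * L * r)
  have hEm : ∀ k, MeasurableSet (E k) := fun k => (hGBo.inter (isOpen_Ann z _)).measurableSet
  have hfc : Continuous fun p => Real.exp (n * u p) := (continuous_const.mul huc).rexp
  have hGi : IntegrableOn (fun p => Real.exp (n * u p)) (GB u z (12 * L * r)) := by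
    obtain ⟨K, hK, hs⟩ := hF
    exact (hfc.continuousOn.integrableOn_compact hK).mono_set hs
  have hpc : ∀ k ∈ Finset.range N, c * (dd u z s / 2) ^ (n - 1) * dd u z (3 * 4 ^ k * s) ≤
      ev u (E k) := by
    intro k hk
    have hkN := hN2 k (Finset.mem_range.1 hk)
    have hq : dd u z s ≤ 2 * dd u z (3 * 4 ^ k * s) := by
      have h1 : (1 : ℝ) ≤ 4 ^ k := one_le_pow₀ (by norm_num)
      refine quasi hu z hT hPT hs ?_ (by linarith)
      nlinarith
    have hd := dd_pos u z hs
    have h1 := hA hu z (h4 k)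
    rw [show 3 * (4 ^ k * s) = 3 * 4 ^ k * s by ring] at h1
    have h2 : GB u z (L * Psi u z (4 ^ k * s)) ∩ Ann z (4 ^ k * s) ⊆ E k := by
      refine Set.inter_subset_inter_left _ (gball_mono ?_)
      have h3 : Psi u z (4 ^ k * s) ≤ Psi u z (3 * 4 ^ k * s) :=
        psi_mono huc z (h4 k).le (by nlinarith [h4 k])
      nlinarith
    have h3 : ev u (GB u z (L * Psi u z (4 ^ k * s)) ∩ Ann z (4 ^ k * s)) ≤ ev u (E k) :=
      setIntegral_mono_set (hGi.mono_set Set.inter_subset_left)
        (Eventually.of_forall fun p => (Real.exp_pos _).le) h2.eventuallyLE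
    refine le_trans ?_ (h1.trans h3)
    have h5 : 0 < dd u z (3 * 4 ^ k * s) := dd_pos u z (by positivity)
    have h6 : (dd u z s / 2) ^ (n - 1) ≤ dd u z (3 * 4 ^ k * s) ^ (n - 1) :=
      pow_le_pow_left₀ (by positivity) (by linarith) _
    have e1 : dd u z (3 * 4 ^ k * s) ^ n =
        dd u z (3 * 4 ^ k * s) ^ (n - 1) * dd u z (3 * 4 ^ k * s) := by
      rw [← pow_succ]
      congr 1
      omega
    rw [e1, mul_assoc]
    exact mul_le_mul_of_nonneg_left (mul_le_mul_of_nonneg_right h6 h5.le) hc.le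
  have hdisj : (Finset.range N : Set ℕ).PairwiseDisjoint E := by
    intro a _ b _ hab
    have key : ∀ a b : ℕ, a < b → Disjoint (E a) (E b) := by
      intro a b hab
      rw [Set.disjoint_left]
      intro p hp hp'
      have h1 : CP.ed p z < 3 * (4 ^ a * s) := hp.2.2
      have h2 : 4 ^ b * s < CP.ed p z := hp'.2.1
      have h3 : (4 : ℝ) ^ (a + 1) ≤ 4 ^ b := pow_le_pow_right₀ (by norm_num) hab
      rw [pow_succ] at h3
      have h5 := h4 a
      nlinarith
    rcases lt_or_gt_of_ne hab with h | h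
    · exact key a b h
    · exact (key b a h).symm
  have htot : ∑ k ∈ Finset.range N, ev u (E k) ≤ ev u (GB u z (12 * L * r)) := by
    have h1 : ev u (⋃ k ∈ Finset.range N, E k) = ∑ k ∈ Finset.range N, ev u (E k) := by
      unfold ev
      exact integral_biUnion_finset (Finset.range N) (fun k _ => hEm k) hdisj
        (fun k _ => hGi.mono_set Set.inter_subset_left)
    rw [← h1]
    refine setIntegral_mono_set hGi (Eventually.of_forall fun p => (Real.exp_pos _).le) ?_
    exact (Set.iUnion₂_subset fun k _ => Set.inter_subset_left).eventuallyLE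
  have hfin := (Finset.sum_le_sum hpc).trans htot
  rw [← Finset.mul_sum] at hfin
  have hd := dd_pos u z hs
  refine le_trans ?_ hfin
  calc c * 2 * (2 ^ (n - 1))⁻¹ * dd u z s ^ (n - 1) * r
      = c * (dd u z s / 2) ^ (n - 1) * (2 * r) := by
        rw [div_pow]
        ring
    _ ≤ c * (dd u z s / 2) ^ (n - 1) * ∑ k ∈ Finset.range N, dd u z (3 * 4 ^ k * s) :=
        mul_le_mul_of_nonneg_left hsum (by positivity)

end

end Pool.Agent.Helper50.YL
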