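import Pool.Agent.Helper50.YL.Ratio
import Pool.Agent.Helper50.YL.Tri
import Pool.Agent.Helper50.YL.VolS

/-!
# YL-14: comparison of `dd` at a point of the ball and at the centre
-/

namespace Pool.Agent.Helper50.YL

open scoped ContDiff Topology NNReal
open Pool.Agent.Helper49.Ric Pool.Agent.Helper73.HB Pool.Agent.Helper50.CF
  Pool.Agent.Helper50.CE Pool.Agent.Helper50.YF MeasureTheory Filter

noncomputable section

variable {n : ℕ} {u : (Fin n → ℝ) → ℝ}

private theorem ed_self (z : Fin n → ℝ) : CP.ed z z = 0 := by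
  unfold CP.ed
  simp

private theorem continuousOn_psi (hu : Continuous u) (z : Fin n → ℝ) {s : ℝ} (hs : 0 ≤ s) :
    ContinuousOn (Psi u z) (Set.Icc 0 s) := by
  have h1 : IntegrableOn (fun t => Real.exp (mn u z t)) (Set.uIcc 0 s) := by
    rw [Set.uIcc_of_le hs, integrableOn_Icc_iff_integrableOn_Ioc]
    exact (intervalIntegrable_iff_integrableOn_Ioc_of_le hs).1
      (psi_intervalIntegrable hu z le_rfl hs)
  have h2 := intervalIntegral.continuousOn_primitive_interval h1
  rw [Set.uIcc_of_le hs] at h2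
  exact h2

theorem exists_comp (n : ℕ) (hn : 3 ≤ n) : ∃ B : ℝ, 1 ≤ B ∧ ∀ {u : (Fin n → ℝ) → ℝ},
    Flat n u → ∀ (x z : Fin n → ℝ) {s r T δ : ℝ}, 0 < s → 0 < r → z ∈ GB u x (2 * r) →
      Psi u z s ≤ 2 * r → 0 ≤ T → 24 * r ≤ Psi u z T → 0 < δ → δ ≤ 1 →
        ∃ t : ℝ, 0 < t ∧ Psi u x t ≤ δ * r ∧ dd u z s ≤ B / δ * dd u x t := by
  obtain ⟨c, L, hc, hL, hA⟩ := exists_volAnn n hn
  refine ⟨4 * (2 + 4 * L), by linarith, ?_⟩
  intro u hu x z s r T δ hs hr hz hPs hT hPT hδ hδ1
  have huc := hu.smooth.continuous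
  set e : ℝ := CP.ed x z with he
  have he0 : 0 ≤ e := CP.ed_nonneg _ _
  have hPe : Psi u z e ≤ 2 * r := by
    have h1 := psi_path hu.smooth z hz
    rw [ed_self, psi_zero, zero_sub, abs_neg] at h1
    exact (le_abs_self _).trans h1
  set s' : ℝ := max s e with hs'
  have hs'0 : 0 < s' := lt_of_lt_of_le hs (le_max_left _ _)
  have hPs' : Psi u z s' ≤ 2 * r := by
    rcases le_total s e with h | h
    · rw [hs', max_eq_right h]
      exact hPe
    · rw [hs', max_eq_left h]
      exact hPs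
  have hP2 : Psi u z (2 * s') ≤ 4 * r := by
    have := psi_scale huc z hs'0.le (by norm_num : (1 : ℝ) ≤ 2)
    linarith
  -- from `z` to `x`
  have h1 : dd u z s ≤ 2 * dd u z (2 * s') :=
    quasi hu z hT hPT hs (by linarith [le_max_left s e]) (by linarith)
  have h2 : dd u z (2 * s') ≤ 2 * dd u x s' := by
    have hsub : ecball x s' ⊆ ecball z (2 * s') := by
      refine CP.ecball_sub (t := s') hs'0.le hs'0.le ?_ (by linarith)
      rw [CP.mem_ecball hs'0.le]
      exact le_max_right _ _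
    have h3 : mn u z (2 * s') ≤ mn u x s' := mn_sub huc hsub
    unfold dd
    have h4 := Real.exp_le_exp.2 h3
    calc 2 * s' * Real.exp (mn u z (2 * s')) ≤ 2 * s' * Real.exp (mn u x s') :=
          mul_le_mul_of_nonneg_left h4 (by positivity)
      _ = 2 * (s' * Real.exp (mn u x s')) := by ring
  -- a point of the ball outside `ecball x s'`
  obtain ⟨y, hy⟩ : (GB u z (L * Psi u z (2 * s')) ∩ Ann z (2 * s')).Nonempty := by
    by_contra hne
    rw [Set.not_nonempty_iff_eq_empty] at hne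
    have h3 := hA hu z (T := 2 * s') (by linarith)
    rw [hne] at h3
    have h4 : ev u (∅ : Set (Fin n → ℝ)) = 0 := by
      unfold ev
      simp
    rw [h4] at h3
    have h5 := dd_pos u z (by linarith : 0 < 3 * (2 * s'))
    have h6 : 0 < c * dd u z (3 * (2 * s')) ^ n := by positivity
    linarith
  have hy1 : y ∈ GB u x ((2 + 4 * L) * r) := by
    have h3 : y ∈ GB u z (4 * L * r) := GB_mono (by nlinarith) hy.1
    have h4 := GB_trans hu.smooth hz h3
    rwa [show 2 * r + 4 * L * r = (2 + 4 * L) * r by ring] at h4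
  have hy2 : s' ≤ CP.ed y x := by
    have h3 := CP.ed_triangle y x z
    have h4 : 2 * s' < CP.ed y z := hy.2.1
    have h5 : CP.ed x z ≤ s' := le_max_right _ _
    linarith
  have hPx : Psi u x s' ≤ (2 + 4 * L) * r := by
    have h3 := psi_path hu.smooth x hy1
    rw [ed_self, psi_zero, sub_zero] at h3
    exact (psi_mono huc x hs'0.le hy2).trans ((le_abs_self _).trans h3)
  have hB : 1 ≤ 2 + 4 * L := by linarith
  rcases le_or_gt (Psi u x s') (δ * r) with h3 | h3
  · refine ⟨s', hs'0, h3, ?_⟩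
    have h4 := dd_pos u x hs'0
    have h5 : 4 ≤ 4 * (2 + 4 * L) / δ := by
      rw [le_div_iff₀ hδ]
      nlinarith
    have h6 : 4 * dd u x s' ≤ 4 * (2 + 4 * L) / δ * dd u x s' :=
      mul_le_mul_of_nonneg_right h5 h4.le
    linarith
  · have hδr : 0 < δ * r := by positivity
    obtain ⟨t, ht, hPt⟩ : δ * r ∈ Psi u x '' Set.Icc 0 s' := by
      refine intermediate_value_Icc hs'0.le (continuousOn_psi huc x hs'0.le) ⟨?_, h3.le⟩
      rw [psi_zero]
      exact hδr.le
    have ht0 : 0 < t := by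
      rcases ht.1.eq_or_lt with h4 | h4
      · rw [← h4, psi_zero] at hPt
        linarith
      · exact h4
    refine ⟨t, ht0, hPt.le, ?_⟩
    have h4 := ratio hu x ht0 ht.2
    rw [hPt] at h4
    have h5 := dd_pos u x ht0
    have h6 : dd u x s' * (δ * r) ≤ dd u x t * ((2 + 4 * L) * r) :=
      h4.trans (mul_le_mul_of_nonneg_left hPx h5.le)
    have h7 : dd u x s' * δ ≤ dd u x t * (2 + 4 * L) := by
      refine le_of_mul_le_mul_right ?_ hr
      linarith
    have h8 : dd u x s' ≤ (2 + 4 * L) / δ * dd u x t := by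
      rw [div_mul_eq_mul_div, le_div_iff₀ hδ]
      linarith
    calc dd u z s ≤ 4 * dd u x s' := by linarith
      _ ≤ 4 * ((2 + 4 * L) / δ * dd u x t) := by linarith
      _ = 4 * (2 + 4 * L) / δ * dd u x t := by ring

end

end Pool.Agent.Helper50.YL
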