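import Pool.Agent.Helper50.YL.RayAv
import Pool.Agent.Helper50.YF.RayC
import Pool.Agent.Helper50.YL.Defs

/-!
# YL-3: if the geodesic ball of radius `L` about `z` is relatively compact then `Psi` exceeds `c L`

PROOF. `K ⊇ GB u z L` compact, `T` so large that `z + T q ∉ K` for all `q ∈ Qs i₀` (`|q| ≥ 1`).  The segment
from `z` to `z + T q` has length `|q| ∫₀ᵀ e^{u(z+tq)} dt ≥ L` (`YF.seg_length'` with `T₁ = 0`, `T₂ = T`; else
its end point is in `GB u z L`), and `|q| ≤ 3`.  Integrate over `Qs i₀` (volume `v > 0`, the same for all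
`i₀`, choose `i₀ = 0`): `v L ≤ 3 C Psi u z T` (`exists_rayAv`).  `c = v/(3C)`.
-/

namespace Pool.Agent.Helper50.YL

open scoped ContDiff Topology NNReal
open Pool.Agent.Helper49.Ric Pool.Agent.Helper73.HB Pool.Agent.Helper50.CF
  Pool.Agent.Helper50.CE Pool.Agent.Helper50.YF MeasureTheory Filter

noncomputable section

variable {n : ℕ} {u : (Fin n → ℝ) → ℝ}

private theorem one_lt_norm {i₀ : Fin n} {q : Fin n → ℝ} (hq : q ∈ Qs i₀) : 1 < ‖q‖ := by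
  have h0 : ∑ i, (q i - (Pi.single i₀ 2 : Fin n → ℝ) i) ^ 2 < 1 ^ 2 := hq
  have h1 : (q i₀ - (Pi.single i₀ 2 : Fin n → ℝ) i₀) ^ 2 ≤
      ∑ i, (q i - (Pi.single i₀ 2 : Fin n → ℝ) i) ^ 2 :=
    Finset.single_le_sum (f := fun i => (q i - (Pi.single i₀ 2 : Fin n → ℝ) i) ^ 2)
      (fun i _ => sq_nonneg _) (Finset.mem_univ i₀)
  rw [Pi.single_eq_same] at h1
  have h2 : 1 < q i₀ := by nlinarith
  have h3 : ‖q i₀‖ ≤ ‖q‖ := norm_le_pi_norm q i₀
  have h4 : q i₀ ≤ ‖q i₀‖ := Real.le_norm_self _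
  linarith

private theorem sqrt_le_three {i₀ : Fin n} {q : Fin n → ℝ} (hq : q ∈ Qs i₀) :
    Real.sqrt (∑ i, q i ^ 2) ≤ 3 := by
  have h1 : CP.ed q (Pi.single i₀ 2) < 1 := (CP.mem_eball one_pos).1 hq
  have h2 : CP.ed (Pi.single i₀ 2 : Fin n → ℝ) 0 = 2 := by
    unfold CP.ed
    have : ∑ i, ((Pi.single i₀ 2 : Fin n → ℝ) i - (0 : Fin n → ℝ) i) ^ 2 = 2 ^ 2 := by
      rw [Finset.sum_eq_single i₀]
      · simp
      · intro j _ hj
        simp [Pi.single_eq_of_ne hj]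
      · simp
    rw [this]
    exact Real.sqrt_sq (by norm_num)
  have h3 := CP.ed_triangle q (Pi.single i₀ 2) 0
  have h4 : CP.ed q 0 = Real.sqrt (∑ i, q i ^ 2) := by
    unfold CP.ed
    simp
  linarith

/-- far rays are long -/
private theorem ray_far (i₀ : Fin n) (hu : Continuous u) {z : Fin n → ℝ} {L : ℝ}
    (hF : Far u z L) : ∃ T : ℝ, 0 ≤ T ∧
      ∀ q ∈ Qs i₀, L ≤ 3 * ∫ t in (0 : ℝ)..T, Real.exp (u (z + t • q)) := by
  obtain ⟨K, hK, hGK⟩ := hF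
  obtain ⟨M, hM⟩ := hK.isBounded.exists_norm_le
  obtain ⟨N, hN⟩ := pow_unbounded_of_one_lt (M + ‖z‖) (one_lt_two : (1 : ℝ) < 2)
  refine ⟨2 ^ N, by positivity, fun q hq => ?_⟩
  have hT : (0 : ℝ) < 2 ^ N := by positivity
  have hI : 0 ≤ ∫ t in (0 : ℝ)..2 ^ N, Real.exp (u (z + t • q)) :=
    intervalIntegral.integral_nonneg hT.le fun t _ => (Real.exp_pos _).le
  by_contra hlt
  push Not at hlt
  have hlen : curveLength (conf u)
      (fun s : ℝ => z + (0 + s * ((2 : ℝ) ^ N - 0)) • q) < L := by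
    rw [seg_length' hu z q 0 (2 ^ N), intervalIntegral.integral_same, sub_zero,
      abs_of_nonneg hI]
    exact lt_of_le_of_lt (mul_le_mul_of_nonneg_right (sqrt_le_three hq) hI) hlt
  have hmem : z + (0 + (1 : ℝ) * ((2 : ℝ) ^ N - 0)) • q ∈ GB u z L := by
    refine ⟨fun s : ℝ => z + (0 + s * ((2 : ℝ) ^ N - 0)) • q, by fun_prop, by simp, rfl,
      fun t _ => Set.mem_univ _, hlen⟩
  have h1 := hM _ (hGK hmem)
  have e1 : 0 + (1 : ℝ) * ((2 : ℝ) ^ N - 0) = 2 ^ N := by ring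
  rw [e1] at h1
  have h2 : ‖(2 : ℝ) ^ N • q‖ = 2 ^ N * ‖q‖ := by
    rw [norm_smul, Real.norm_of_nonneg hT.le]
  have h3 : ‖(2 : ℝ) ^ N • q‖ ≤ ‖z + (2 : ℝ) ^ N • q‖ + ‖z‖ := by
    have := norm_sub_le (z + (2 : ℝ) ^ N • q) z
    rwa [add_sub_cancel_left] at this
  have h4 : (2 : ℝ) ^ N * 1 < 2 ^ N * ‖q‖ := mul_lt_mul_of_pos_left (one_lt_norm hq) hT
  linarith

theorem exists_psiFar (n : ℕ) (hn : 3 ≤ n) : ∃ c : ℝ, 0 < c ∧ ∀ {u : (Fin n → ℝ) → ℝ},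
    Flat n u → ∀ (z : Fin n → ℝ) {L : ℝ}, 0 < L → Far u z L →
      ∃ T : ℝ, 0 ≤ T ∧ c * L ≤ Psi u z T := by
  obtain ⟨C, hC1, hC⟩ := exists_rayAv n hn
  set i₀ : Fin n := ⟨0, by omega⟩ with hi₀
  have hopen : IsOpen (Qs i₀) := CP.isOpen_eball _ _
  have hne : (Qs i₀).Nonempty := ⟨Pi.single i₀ 2, by
    show ∑ i, ((Pi.single i₀ 2 : Fin n → ℝ) i - (Pi.single i₀ 2 : Fin n → ℝ) i) ^ 2 < 1 ^ 2
    simp⟩
  have hcpt := CP.isCompact_ecball' (Pi.single i₀ 2 : Fin n → ℝ) 1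
  have hsub : Qs i₀ ⊆ ecball (Pi.single i₀ 2) 1 := CP.eball_subset_ecball' _ _
  have hfin : volume (Qs i₀) < ⊤ := lt_of_le_of_lt (measure_mono hsub) hcpt.measure_lt_top
  have hv : 0 < volume.real (Qs i₀) :=
    ENNReal.toReal_pos (hopen.measure_pos volume hne).ne' hfin.ne
  set v := volume.real (Qs i₀) with hvdef
  have hCpos : 0 < C := by linarith
  refine ⟨v / (3 * C), by positivity, ?_⟩
  intro u hu z L hL hF
  obtain ⟨T, hT0, hT⟩ := ray_far i₀ hu.smooth.continuous hF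
  refine ⟨T, hT0, ?_⟩
  have hcont : Continuous fun q : Fin n → ℝ =>
      ∫ t in (0 : ℝ)..T, Real.exp (u (z + t • q)) := cont_ray hu.smooth.continuous z T
  have hint : IntegrableOn (fun q : Fin n → ℝ =>
      ∫ t in (0 : ℝ)..T, Real.exp (u (z + t • q))) (Qs i₀) :=
    (hcont.continuousOn.integrableOn_compact hcpt).mono_set hsub
  have h2 : ∫ _q in Qs i₀, L / 3 ≤
      ∫ q in Qs i₀, (∫ t in (0 : ℝ)..T, Real.exp (u (z + t • q))) := by
    refine setIntegral_mono_on (integrableOn_const hfin.ne) hint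
      hopen.measurableSet fun q hq => ?_
    have h3 := hT q hq
    linarith
  rw [setIntegral_const, smul_eq_mul, ← hvdef] at h2
  have h3 := h2.trans (hC hu i₀ z hT0)
  have h4 : v / (3 * C) * L = (v * (L / 3)) / C := by field_simp
  rw [h4, div_le_iff₀ hCpos]
  linarith

end

end Pool.Agent.Helper50.YL
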