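import Pool.Agent.Helper50.YF.SmallMass
import Pool.Agent.Helper50.YL.Defs

/-!
# YL-5: stopping index for `good2`

PROOF. As `YF/SmallMass.lean`; `exists_good` of that file gives the mass part (any `ρ`), and
`Psi u z s ≤ s exp (u z)` (`mn u z t ≤ u z`).
-/

namespace Pool.Agent.Helper50.YL

open scoped ContDiff Topology NNReal
open Pool.Agent.Helper49.Ric Pool.Agent.Helper73.HB Pool.Agent.Helper50.CF
  Pool.Agent.Helper50.CE Pool.Agent.Helper50.YF MeasureTheory Filter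

noncomputable section

variable {n : ℕ} {u : (Fin n → ℝ) → ℝ}

/-- `Psi u z s ≤ s exp (u z)` -/
theorem psi_le_mul (hu : Continuous u) (z : Fin n → ℝ) {s : ℝ} (hs : 0 ≤ s) :
    Psi u z s ≤ s * Real.exp (u z) := by
  have h1 : ∫ t in (0 : ℝ)..s, Real.exp (mn u z t) ≤ ∫ _ in (0 : ℝ)..s, Real.exp (u z) :=
    intervalIntegral.integral_mono_on hs (psi_intervalIntegrable hu z le_rfl hs)
      intervalIntegrable_const
      fun t _ => Real.exp_le_exp.2 (mn_le hu (mem_self z t))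
  rw [intervalIntegral.integral_const, smul_eq_mul, sub_zero] at h1
  exact h1

theorem exists_good2 (h : Flat n u) {ε ρ : ℝ} (hε : 0 < ε) (hρ : 0 < ρ) (z : Fin n → ℝ) :
    ∃ J : ℤ, ∀ j ≤ J, good2 u ε ρ z j := by
  obtain ⟨J₁, hJ₁⟩ := exists_good h hε hρ z
  have hc := h.smooth.continuous
  obtain ⟨k, hk⟩ : ∃ k : ℕ, 20 * n * Real.exp (u z) / ρ < 2 ^ k :=
    pow_unbounded_of_one_lt _ one_lt_two
  refine ⟨min J₁ (-(k : ℤ)), fun j hj => ⟨(hJ₁ j (hj.trans (min_le_left _ _))).1, ?_⟩⟩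
  have h1 : (2 : ℝ) ^ j ≤ 2 ^ (-(k : ℤ)) :=
    zpow_le_zpow_right₀ one_le_two (hj.trans (min_le_right _ _))
  have h2 : (2 : ℝ) ^ (-(k : ℤ)) = (2 ^ k)⁻¹ := by rw [zpow_neg, zpow_natCast]
  have hj0 : (0 : ℝ) < 2 ^ j := zpow_pos two_pos j
  have hk0 : (0 : ℝ) < 2 ^ k := by positivity
  have h3 := psi_le_mul hc z (s := 20 * n * 2 ^ j) (by positivity)
  rw [div_lt_iff₀ hρ] at hk
  rw [h2] at h1
  have h4 : 20 * (n : ℝ) * 2 ^ j * Real.exp (u z) ≤ 20 * n * Real.exp (u z) * (2 ^ k)⁻¹ := by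
    have := mul_le_mul_of_nonneg_left h1
      (show 0 ≤ 20 * (n : ℝ) * Real.exp (u z) by positivity)
    linarith [this, show 20 * (n : ℝ) * 2 ^ j * Real.exp (u z)
      = 20 * n * Real.exp (u z) * 2 ^ j by ring]
  have h5 : 20 * (n : ℝ) * Real.exp (u z) * (2 ^ k)⁻¹ ≤ ρ := by
    rw [← div_eq_mul_inv, div_le_iff₀ hk0]
    linarith [hk]
  exact h3.trans (h4.trans h5)

theorem exists_stop2 (h : Flat n u) {ε ρ : ℝ} (hε : 0 < ε) (hρ : 0 < ρ) (z : Fin n → ℝ)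
    (J : ℤ) (hJ : ¬ good2 u ε ρ z J) :
    ∃ j : ℤ, good2 u ε ρ z j ∧ ¬ good2 u ε ρ z (j + 1) := by
  obtain ⟨J₀, hJ₀⟩ := exists_good2 h hε hρ z
  by_contra hcon
  push Not at hcon
  have h1 : ∀ m : ℕ, good2 u ε ρ z (J₀ + m) := by
    intro m
    induction m with
    | zero => simpa using hJ₀ J₀ le_rfl
    | succ m ih =>
      have := hcon _ ih
      have h2 : J₀ + ((m + 1 : ℕ) : ℤ) = J₀ + (m : ℤ) + 1 := by push_cast; ring
      rw [h2]
      exact this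
  rcases le_or_gt J J₀ with hle | hlt
  · exact hJ (hJ₀ J hle)
  · refine hJ ?_
    have h2 := h1 (J - J₀).toNat
    have h3 : J₀ + ((J - J₀).toNat : ℤ) = J := by
      rw [Int.toNat_of_nonneg (by linarith)]; ring
    rwa [h3] at h2

end

end Pool.Agent.Helper50.YL
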