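import Pool.Agent.Helper50.YL.Star2
import Pool.Agent.Helper50.YF.Mu

/-!
# YL-7: the total sum, local version

PROOF. As `YF/Total.lean` with `exists_star2` (same `Λ₁`).  `Psi u (z i) (2^{j i}) ≤ Psi u (z i) (20 n 2^{j i})
≤ ρ` (`psi_mono`; if `n = 0` then `Flat n u` is false).  `s₂` = the `i` with
`ρ < Psi u (z i) (40 n 2^{j i})`: there `ed x₀ (z i) ≤ 40 n 2^{j i}` directly, since otherwise
`ρ < Psi u (z i) (40 n 2^{j i}) ≤ Psi u (z i) (ed x₀ (z i)) ≤ ρ` (`psi_mono`, `psi_path` with `b = z i`).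
`s₁` (`ε < ms u (z i) (10 n 2^{j i})`) as before.
-/

namespace Pool.Agent.Helper50.YL

open scoped ContDiff Topology NNReal
open Pool.Agent.Helper49.Ric Pool.Agent.Helper73.HB Pool.Agent.Helper50.CF
  Pool.Agent.Helper50.CE Pool.Agent.Helper50.YF MeasureTheory Filter

noncomputable section

variable {n : ℕ} {u : (Fin n → ℝ) → ℝ}

/-- the sup distance is at most the Euclidean one -/
private theorem dist_le_ed (p q : Fin n → ℝ) : dist p q ≤ CP.ed p q := by
  rw [dist_pi_le_iff (CP.ed_nonneg p q)]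
  intro i
  rw [Real.dist_eq]
  refine Real.abs_le_sqrt ?_
  exact Finset.single_le_sum (f := fun i => (p i - q i) ^ 2) (fun i _ => sq_nonneg _)
    (Finset.mem_univ i)

/-- a point with large `Psi` sees `x₀` at its scale -/
private theorem ed_le_of_psi (h : Flat n u) {x₀ z : Fin n → ℝ} {ρ r : ℝ} (hr : 0 < r)
    (hz : z ∈ GB u x₀ ρ) (hd : ρ < Psi u z r) : CP.ed x₀ z ≤ r := by
  by_contra hc
  push Not at hc
  have hcont : Continuous u := h.smooth.continuous
  have h1 : Psi u z r ≤ Psi u z (CP.ed x₀ z) := psi_mono hcont z hr.le hc.le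
  have h3 := psi_path h.smooth z hz
  have h4 : CP.ed z z = 0 := by
    unfold CP.ed
    simp
  rw [h4, psi_zero, zero_sub, abs_neg] at h3
  have h5 := le_abs_self (Psi u z (CP.ed x₀ z))
  linarith

theorem exists_total2 (n : ℕ) {ε : ℝ} (hε : 0 < ε) : ∃ C Λ₁ : ℝ, 1 ≤ C ∧ 1 ≤ Λ₁ ∧
    ∀ {u : (Fin n → ℝ) → ℝ}, Flat n u → ∀ (x₀ : Fin n → ℝ) {ρ : ℝ}, 0 < ρ →
    ∀ {ι : Type} (s : Finset ι) (z : ι → Fin n → ℝ) (j : ι → ℤ), (∀ i ∈ s, z i ∈ GB u x₀ ρ) →
      (∀ i ∈ s, ∃ T : ℝ, 0 ≤ T ∧ Λ₁ * ρ ≤ Psi u (z i) T) →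
      (∀ i ∈ s, ∀ i' ∈ s, i ≠ i' → Disjoint (Metric.closedBall (z i) ((2 : ℝ) ^ j i))
        (Metric.closedBall (z i') ((2 : ℝ) ^ j i'))) →
      (∀ i ∈ s, good2 u ε ρ (z i) (j i) ∧ ¬ good2 u ε ρ (z i) (j i + 1)) →
      ∑ i ∈ s, dd u (z i) (2 ^ j i) ≤ C * ρ := by
  classical
  obtain ⟨C₁, Λ₁, hC₁, hΛ₁, hstar⟩ := exists_star2 n
  obtain ⟨M, hM, hmass⟩ := exists_M0 n
  refine ⟨(M / ε + 1) * C₁, Λ₁, ?_, hΛ₁, ?_⟩
  · have h1 : 0 ≤ M / ε := by positivity
    nlinarith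
  intro u h x₀ ρ hρ ι s z j hz hfar hdisj hgood
  have hcont : Continuous u := h.smooth.continuous
  have hn : (3 : ℝ) ≤ n := by exact_mod_cast h.hn
  have hn0 : (0 : ℝ) < n := by linarith
  have hp : ∀ i, (0 : ℝ) < 2 ^ j i := fun i => zpow_pos two_pos _
  -- `Psi ≤ ρ`
  have hdd : ∀ i ∈ s, Psi u (z i) (2 ^ j i) ≤ ρ := by
    intro i hi
    refine (psi_mono hcont (z i) (hp i).le ?_).trans (hgood i hi).1.2
    nlinarith [hp i]
  have hdd0 : ∀ i, 0 ≤ dd u (z i) (2 ^ j i) := fun i => (dd_pos u (z i) (hp i)).le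
  -- the two parts
  set s₁ := s.filter (fun i => ε < ms u (z i) (10 * n * 2 ^ j i)) with hs₁
  set s₂ := s.filter (fun i => ρ < Psi u (z i) (40 * n * 2 ^ j i)) with hs₂
  have hsub₁ : ∀ i ∈ s₁, i ∈ s := fun i hi => (Finset.mem_filter.1 hi).1
  have hsub₂ : ∀ i ∈ s₂, i ∈ s := fun i hi => (Finset.mem_filter.1 hi).1
  have hunion : s ⊆ s₁ ∪ s₂ := by
    intro i hi
    rw [Finset.mem_union, hs₁, hs₂, Finset.mem_filter, Finset.mem_filter]
    by_contra hc
    push Not at hc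
    refine (hgood i hi).2 ⟨?_, ?_⟩
    · have h1 := hc.1 hi
      have h2 : 5 * (n : ℝ) * 2 ^ (j i + 1) = 10 * n * 2 ^ j i := by
        rw [zpow_add_one₀ two_ne_zero]
        ring
      rw [h2]
      exact h1
    · have h1 := hc.2 hi
      have h2 : 20 * (n : ℝ) * 2 ^ (j i + 1) = 40 * n * 2 ^ j i := by
        rw [zpow_add_one₀ two_ne_zero]
        ring
      rw [h2]
      exact h1
  have hsum : ∑ i ∈ s, dd u (z i) (2 ^ j i) ≤
      ∑ i ∈ s₁, dd u (z i) (2 ^ j i) + ∑ i ∈ s₂, dd u (z i) (2 ^ j i) := by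
    calc ∑ i ∈ s, dd u (z i) (2 ^ j i) ≤ ∑ i ∈ s₁ ∪ s₂, dd u (z i) (2 ^ j i) :=
          Finset.sum_le_sum_of_subset_of_nonneg hunion fun i _ _ => hdd0 i
      _ ≤ ∑ i ∈ s₁ ∪ s₂, dd u (z i) (2 ^ j i) + ∑ i ∈ s₁ ∩ s₂, dd u (z i) (2 ^ j i) :=
          le_add_of_nonneg_right (Finset.sum_nonneg fun i _ => hdd0 i)
      _ = _ := Finset.sum_union_inter
  -- the second part
  have hpart₂ : ∑ i ∈ s₂, dd u (z i) (2 ^ j i) ≤ C₁ * ρ := by
    rcases s₂.eq_empty_or_nonempty with h0 | h0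
    · rw [h0, Finset.sum_empty]
      positivity
    · obtain ⟨g, hg, hmin⟩ := s₂.exists_min_image j h0
      have hed : ∀ i ∈ s₂, CP.ed x₀ (z i) ≤ 40 * n * 2 ^ j i := fun i hi =>
        ed_le_of_psi h (by have := hp i; positivity) (hz i (hsub₂ i hi))
          (Finset.mem_filter.1 hi).2
      refine hstar h x₀ hρ s₂ z j (fun i hi => hz i (hsub₂ i hi))
        (fun i hi => hfar i (hsub₂ i hi))
        (fun i hi i' hi' hne => hdisj i (hsub₂ i hi) i' (hsub₂ i' hi') hne)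
        (fun i hi => hdd i (hsub₂ i hi)) g hg fun i hi => ?_
      have h1 := hed i hi
      have h2 := hed g hg
      have h3 : (2 : ℝ) ^ j g ≤ 2 ^ j i := zpow_le_zpow_right₀ one_le_two (hmin i hi)
      have h4 := CP.ed_triangle (z i) x₀ (z g)
      have h5 := dist_le_ed (z i) (z g)
      rw [CP.ed_comm (z i) x₀] at h4
      have h6 : 40 * (n : ℝ) * 2 ^ j g ≤ 40 * n * 2 ^ j i :=
        mul_le_mul_of_nonneg_left h3 (by positivity)
      have h7 : 0 < (n : ℝ) * 2 ^ j i := mul_pos hn0 (hp i)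
      linarith
  -- the first part
  have hpart₁ : ∑ i ∈ s₁, dd u (z i) (2 ^ j i) ≤ M / ε * (C₁ * ρ) := by
    set B : ι → Set (Fin n → ℝ) := fun i => eball (z i) (4 * (10 * n * 2 ^ j i)) with hB
    have hBr : ∀ i, (0 : ℝ) < 4 * (10 * n * 2 ^ j i) := fun i => by
      have := hp i
      positivity
    have hBz : ∀ i, z i ∈ B i := fun i => by
      rw [hB]
      show z i ∈ eball (z i) _
      rw [CP.mem_eball (hBr i)]
      have h4 : CP.ed (z i) (z i) = 0 := by
        unfold CP.ed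
        simp
      rw [h4]
      exact hBr i
    obtain ⟨G, hG, hGd, hGc⟩ := Vitali.exists_disjoint_subfamily_covering_enlargement B
      (s₁ : Set ι) (fun i => 1 / (2 : ℝ) ^ j i) 2 one_lt_two
      (fun i _ => (one_div_pos.2 (hp i)).le) (∑ i ∈ s₁, 1 / (2 : ℝ) ^ j i)
      (fun i hi => Finset.single_le_sum (f := fun i => 1 / (2 : ℝ) ^ j i)
        (fun i _ => (one_div_pos.2 (hp i)).le) (Finset.mem_coe.1 hi))
      (fun i _ => ⟨z i, hBz i⟩)
    -- `G` as a finset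
    set G' := s₁.filter (fun i => i ∈ G) with hG'
    have hG'm : ∀ i, i ∈ G' ↔ i ∈ G := fun i => by
      rw [hG', Finset.mem_filter]
      exact ⟨fun h => h.2, fun h => ⟨hG h, h⟩⟩
    have hG's : ∀ i ∈ G', i ∈ s₁ := fun i hi => (Finset.mem_filter.1 hi).1
    have hcard : (G'.card : ℝ) * ε ≤ M := by
      have h1 := hmass h G' z (fun i => 10 * n * 2 ^ j i)
        (fun i _ => by have := hp i; positivity)
        (fun i hi i' hi' hne => hGd ((hG'm i).1 hi) ((hG'm i').1 hi') hne)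
      have h2 : (G'.card : ℝ) * ε ≤ ∑ i ∈ G', ms u (z i) (10 * n * 2 ^ j i) := by
        rw [← nsmul_eq_mul]
        exact Finset.card_nsmul_le_sum _ _ _ fun i hi =>
          ((Finset.mem_filter.1 (hG's i hi)).2).le
      exact h2.trans h1
    -- the stars
    set S : ι → Finset ι := fun g => s₁.filter (fun i => (B i ∩ B g).Nonempty ∧
      1 / (2 : ℝ) ^ j i ≤ 2 * (1 / 2 ^ j g)) with hS
    have hSs : ∀ g, ∀ i ∈ S g, i ∈ s := fun g i hi => hsub₁ i (Finset.mem_filter.1 hi).1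
    have hSg : ∀ g ∈ G', ∑ i ∈ S g, dd u (z i) (2 ^ j i) ≤ C₁ * ρ := by
      intro g hg
      have hgS : g ∈ S g := by
        rw [hS]
        refine Finset.mem_filter.2 ⟨hG's g hg, ⟨z g, hBz g, hBz g⟩, ?_⟩
        have := one_div_pos.2 (hp g)
        linarith
      refine hstar h x₀ hρ (S g) z j (fun i hi => hz i (hSs g i hi))
        (fun i hi => hfar i (hSs g i hi))
        (fun i hi i' hi' hne => hdisj i (hSs g i hi) i' (hSs g i' hi') hne)
        (fun i hi => hdd i (hSs g i hi)) g hgS fun i hi => ?_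
      obtain ⟨⟨p, hpi, hpg⟩, hle⟩ := (Finset.mem_filter.1 hi).2
      have h1 : CP.ed p (z i) < 4 * (10 * n * 2 ^ j i) := (CP.mem_eball (hBr i)).1 hpi
      have h2 : CP.ed p (z g) < 4 * (10 * n * 2 ^ j g) := (CP.mem_eball (hBr g)).1 hpg
      have h3 : (2 : ℝ) ^ j g ≤ 2 * 2 ^ j i := by
        have hi0 := hp i
        have hg0 := hp g
        rw [mul_one_div, div_le_div_iff₀ hi0 hg0, one_mul] at hle
        exact hle
      have h4 := CP.ed_triangle (z i) p (z g)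
      rw [CP.ed_comm (z i) p] at h4
      have h5 := dist_le_ed (z i) (z g)
      have h6 : 40 * (n : ℝ) * 2 ^ j g ≤ 40 * n * (2 * 2 ^ j i) :=
        mul_le_mul_of_nonneg_left h3 (by positivity)
      linarith
    calc ∑ i ∈ s₁, dd u (z i) (2 ^ j i)
        ≤ ∑ i ∈ s₁, ∑ g ∈ G', (if i ∈ S g then dd u (z i) (2 ^ j i) else 0) := by
          refine Finset.sum_le_sum fun i hi => ?_
          obtain ⟨g, hg, hne, hle⟩ := hGc i (Finset.mem_coe.2 hi)
          have hiS : i ∈ S g := Finset.mem_filter.2 ⟨hi, hne, hle⟩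
          have h1 := Finset.single_le_sum
            (f := fun g => if i ∈ S g then dd u (z i) (2 ^ j i) else 0)
            (fun g _ => by
              show 0 ≤ if i ∈ S g then dd u (z i) (2 ^ j i) else 0
              split_ifs
              · exact hdd0 i
              · exact le_rfl) ((hG'm g).2 hg)
          simpa only [hiS, if_true] using h1
      _ = ∑ g ∈ G', ∑ i ∈ s₁, (if i ∈ S g then dd u (z i) (2 ^ j i) else 0) :=
          Finset.sum_comm
      _ ≤ ∑ g ∈ G', C₁ * ρ := by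
          refine Finset.sum_le_sum fun g hg => ?_
          refine le_trans (le_of_eq ?_) (hSg g hg)
          rw [← Finset.sum_filter]
          refine Finset.sum_congr ?_ fun _ _ => rfl
          ext i
          rw [Finset.mem_filter]
          exact ⟨fun h => h.2, fun h => ⟨(Finset.mem_filter.1 h).1, h⟩⟩
      _ = G'.card * (C₁ * ρ) := by
          rw [Finset.sum_const, nsmul_eq_mul]
      _ ≤ M / ε * (C₁ * ρ) := by
          refine mul_le_mul_of_nonneg_right ?_ (by positivity)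
          rw [le_div_iff₀ hε]
          exact hcard
  calc ∑ i ∈ s, dd u (z i) (2 ^ j i) ≤ _ := hsum
    _ ≤ M / ε * (C₁ * ρ) + C₁ * ρ := add_le_add hpart₁ hpart₂
    _ = (M / ε + 1) * C₁ * ρ := by ring

end

end Pool.Agent.Helper50.YL
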