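import Pool.Agent.Helper50.YF.Main
import Pool.Agent.Helper50.YF.Fin
import Pool.Agent.Helper50.YL.Tri
import Pool.Agent.Helper50.YL.PsiFar
import Pool.Agent.Helper50.YL.Small2
import Pool.Agent.Helper50.YL.Total2

/-!
# YL-8: the local theorem (assembly)
-/

namespace Pool.Agent.Helper50.YL

open scoped ContDiff Topology NNReal
open Pool.Agent.Helper49.Ric Pool.Agent.Helper73.HB Pool.Agent.Helper50.CF
  Pool.Agent.Helper50.CE Pool.Agent.Helper50.YF MeasureTheory Filter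

noncomputable section

variable {n : ℕ} {u : (Fin n → ℝ) → ℝ}

theorem exists_main2 (n : ℕ) (hn : 3 ≤ n) : ∃ C Λ : ℝ, 1 ≤ C ∧ 1 ≤ Λ ∧
    ∀ {u : (Fin n → ℝ) → ℝ}, Flat n u → ∀ (x : Fin n → ℝ) {r : ℝ}, 0 < r → Far u x (Λ * r) →
      ∫ p in GB u x r, sc u p ≤ C * r ^ (n - 2) := by
  obtain ⟨ε, C₁, hε, hC₁, hsm⟩ := exists_small n hn
  obtain ⟨C₂, Λ₁, hC₂, hΛ₁, htot⟩ := exists_total2 n hε
  obtain ⟨c, hc0, hfar⟩ := exists_psiFar n hn
  have hn1 : (1 : ℝ) ≤ n := by exact_mod_cast (by omega : 1 ≤ n)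
  have hD : 1 ≤ 20 * (n : ℝ) * C₁ * C₂ := by
    have h1 : 1 ≤ C₁ * C₂ := one_le_mul_of_one_le_of_one_le hC₁ hC₂
    nlinarith
  have hq : 0 < 2 * Λ₁ / c := by positivity
  refine ⟨20 * n * C₁ * C₂ * 2 ^ (n - 2), 2 + 2 * Λ₁ / c, ?_, by linarith,
    fun {u} hu x r hr hF => ?_⟩
  · exact one_le_mul_of_one_le_of_one_le hD (one_le_pow₀ (by norm_num))
  have hρ : 0 < 2 * r := by linarith
  -- the compact set
  obtain ⟨K', hK', hGK'⟩ := hF
  have hle : r ≤ (2 + 2 * Λ₁ / c) * r := by nlinarith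
  have hGK1 : GB u x r ⊆ K' := (GB_mono hle).trans hGK'
  set K := closure (GB u x r) with hKd
  have hKc : IsCompact K := hK'.of_isClosed_subset isClosed_closure
    (closure_minimal hGK1 hK'.isClosed)
  have hKρ : K ⊆ GB u x (2 * r) := closure_GB hu.smooth x (by linarith)
  have hsK : ∫ p in GB u x r, sc u p ≤ ∫ p in K, sc u p :=
    sc_mono hu (sc_int hu.smooth hKc subset_rfl) subset_closure
  refine hsK.trans ?_
  -- `Psi` is large somewhere
  have hT : ∀ z ∈ K, ∃ T : ℝ, 0 ≤ T ∧ Λ₁ * (2 * r) ≤ Psi u z T := by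
    intro z hz
    have h1 : Far u z (2 * Λ₁ / c * r) := by
      refine ⟨K', hK', fun y hy => hGK' ?_⟩
      have h2 := GB_trans hu.smooth (hKρ hz) hy
      have e1 : 2 * r + 2 * Λ₁ / c * r = (2 + 2 * Λ₁ / c) * r := by ring
      rwa [e1] at h2
    obtain ⟨T, hT0, hT⟩ := hfar hu z (by positivity) h1
    refine ⟨T, hT0, ?_⟩
    have e2 : c * (2 * Λ₁ / c * r) = Λ₁ * (2 * r) := by field_simp
    rwa [e2] at hT
  -- the single piece bound
  have hddρ : ∀ (z : Fin n → ℝ) (j : ℤ), good2 u ε (2 * r) z j →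
      dd u z (20 * n * 2 ^ j) ≤ 2 * r := fun z j hg =>
    (dd_le_psi hu.smooth.continuous z (by positivity)).trans hg.2
  have piece : ∀ (z : Fin n → ℝ) (j : ℤ), good2 u ε (2 * r) z j →
      ∫ p in eball z (5 * n * 2 ^ j), sc u p ≤ C₁ * dd u z (20 * n * 2 ^ j) ^ (n - 2) := by
    intro z j hg
    have h1 := hsm hu z (r := 5 * n * 2 ^ j) (by positivity) hg.1
    rwa [show 4 * (5 * (n : ℝ) * 2 ^ j) = 20 * n * 2 ^ j by ring] at h1
  -- a large scale
  obtain ⟨R, hR⟩ := hKc.isBounded.subset_closedBall (0 : Fin n → ℝ)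
  obtain ⟨J, hJ⟩ : ∃ J : ℕ, 2 * |R| + 1 < 2 ^ J := pow_unbounded_of_one_lt _ (by norm_num)
  have hbig : ∀ z ∈ K, K ⊆ Metric.closedBall z ((2 : ℝ) ^ (J : ℤ)) := by
    intro z hz p hp
    have h1 := hR hz
    have h2 := hR hp
    rw [Metric.mem_closedBall] at h1 h2 ⊢
    have h3 : dist p z ≤ dist p 0 + dist z 0 := dist_triangle_right p z 0
    rw [zpow_natCast]
    have h4 := le_abs_self R
    linarith
  have hpow : (2 * r) ^ (n - 2) = 2 ^ (n - 2) * r ^ (n - 2) := mul_pow _ _ _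
  have hrp : 0 < r ^ (n - 2) := by positivity
  by_cases hA : ∃ z ∈ K, good2 u ε (2 * r) z J
  · obtain ⟨z, hz, hg⟩ := hA
    have h1 : K ⊆ eball z (5 * n * 2 ^ (J : ℤ)) :=
      (hbig z hz).trans (closedBall_sub (by omega) z (by positivity))
    refine (sc_mono hu (sc_int_eball hu.smooth z _) h1).trans ((piece z J hg).trans ?_)
    have h2 : dd u z (20 * n * 2 ^ (J : ℤ)) ^ (n - 2) ≤ (2 * r) ^ (n - 2) :=
      pow_le_pow_left₀ (dd_pos u z (by positivity)).le (hddρ z J hg) _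
    calc C₁ * dd u z (20 * n * 2 ^ (J : ℤ)) ^ (n - 2) ≤ C₁ * (2 * r) ^ (n - 2) :=
          mul_le_mul_of_nonneg_left h2 (by linarith)
      _ = C₁ * (2 ^ (n - 2) * r ^ (n - 2)) := by rw [hpow]
      _ ≤ (20 * n * C₁ * C₂) * (2 ^ (n - 2) * r ^ (n - 2)) := by
          refine mul_le_mul_of_nonneg_right ?_ (by positivity)
          have h3 : 1 ≤ 20 * (n : ℝ) * C₂ := by nlinarith
          nlinarith
      _ = 20 * n * C₁ * C₂ * 2 ^ (n - 2) * r ^ (n - 2) := by ring
  · push Not at hA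
    -- stopping indices
    have hst : ∀ z ∈ K, ∃ j : ℤ, good2 u ε (2 * r) z j ∧ ¬ good2 u ε (2 * r) z (j + 1) :=
      fun z hz => exists_stop2 hu hε hρ z J (hA z hz)
    choose! j hj using hst
    obtain ⟨s, hsK, hdis, hcov⟩ := exists_cover (by omega) hKc j
    have h1 : ∫ p in K, sc u p ≤ ∑ z ∈ s, ∫ p in eball z (5 * n * 2 ^ j z), sc u p :=
      sum_cover hu s (fun z => eball z (5 * n * 2 ^ j z))
        (fun z _ => (CP.isOpen_eball z _).measurableSet)
        (fun z _ => sc_int_eball hu.smooth z _) hcov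
    refine h1.trans ?_
    have h2 := htot hu x hρ s (fun z => z) j (fun z hz => hKρ (hsK z hz))
      (fun z hz => hT z (hsK z hz)) hdis (fun z hz => hj z (hsK z hz))
    have h3 : ∀ z ∈ s, ∫ p in eball z (5 * n * 2 ^ j z), sc u p ≤
        C₁ * (2 * r) ^ (n - 3) * (20 * n) * dd u z (2 ^ j z) := by
      intro z hz
      have hg := (hj z (hsK z hz)).1
      refine (piece z (j z) hg).trans ?_
      have h4 := hddρ z (j z) hg
      have h5 : 0 < dd u z (20 * n * 2 ^ j z) := dd_pos u z (by positivity)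
      have h6 : dd u z (20 * n * 2 ^ j z) ≤ 20 * n * dd u z (2 ^ j z) :=
        dd_scale hu.smooth.continuous z (by positivity) (by linarith)
      have e1 : n - 2 = n - 3 + 1 := by omega
      rw [e1, pow_succ]
      have h7 : dd u z (20 * n * 2 ^ j z) ^ (n - 3) ≤ (2 * r) ^ (n - 3) :=
        pow_le_pow_left₀ h5.le h4 _
      calc C₁ * (dd u z (20 * n * 2 ^ j z) ^ (n - 3) * dd u z (20 * n * 2 ^ j z))
          ≤ C₁ * ((2 * r) ^ (n - 3) * (20 * n * dd u z (2 ^ j z))) := by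
            refine mul_le_mul_of_nonneg_left ?_ (by linarith)
            exact mul_le_mul h7 h6 h5.le (by positivity)
        _ = C₁ * (2 * r) ^ (n - 3) * (20 * n) * dd u z (2 ^ j z) := by ring
    refine (Finset.sum_le_sum h3).trans ?_
    rw [← Finset.mul_sum]
    have h8 : C₁ * (2 * r) ^ (n - 3) * (20 * n) * ∑ z ∈ s, dd u z (2 ^ j z) ≤
        C₁ * (2 * r) ^ (n - 3) * (20 * n) * (C₂ * (2 * r)) :=
      mul_le_mul_of_nonneg_left h2 (by positivity)
    refine h8.trans (le_of_eq ?_)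
    have e1 : n - 2 = n - 3 + 1 := by omega
    rw [e1, pow_succ, pow_succ]
    rw [mul_pow]
    ring

/-- the local form of Yau's bound, and the complete case -/
theorem exists_yau2 (hn : 3 ≤ n) : ∃ C Λ : ℝ, ∀ u : (Fin n → ℝ) → ℝ, ContDiff ℝ ∞ u →
    NonnegRicci (conf u) → ∀ (x : Fin n → ℝ) (r : ℝ), 0 < r →
      (∃ K : Set (Fin n → ℝ), IsCompact K ∧ gball Set.univ (conf u) x (Λ * r) ⊆ K) →
      IntegrableOn (fun p => scal (conf u) p * Real.sqrt (conf u p).det)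
        (gball Set.univ (conf u) x r) ∧
      ∫ p in gball Set.univ (conf u) x r, scal (conf u) p * Real.sqrt (conf u p).det ≤
        C * r ^ (n - 2) := by
  obtain ⟨C, Λ, -, hΛ, H⟩ := exists_main2 n hn
  refine ⟨C, Λ, fun u hu hR x r hr hF => ?_⟩
  have hflat := flat_of hn hu hR
  have e1 : (fun p => scal (conf u) p * Real.sqrt (conf u p).det) = sc u := by
    funext p
    exact scal_conf hu.contDiffAt
  rw [e1]
  obtain ⟨K, hK, hs⟩ := hF
  have hle : r ≤ Λ * r := by nlinarith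
  have hs' : GB u x r ⊆ K := (GB_mono hle).trans hs
  exact ⟨sc_int hu hK hs', H hflat x hr ⟨K, hK, hs⟩⟩

/-- geodesic balls of complete metrics are relatively compact -/
theorem cpl_of_complete (hn : 3 ≤ n) (hu : ContDiff ℝ ∞ u) (hR : NonnegRicci (conf u))
    (hc : IsCompleteMetric (conf u)) (x : Fin n → ℝ) (r : ℝ) :
    ∃ K : Set (Fin n → ℝ), IsCompact K ∧ gball Set.univ (conf u) x r ⊆ K :=
  cpl_of_mon hu (mon_of_complete (flat_of hn hu hR) hc) x r

end

end Pool.Agent.Helper50.YL
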