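import Pool.Agent.Helper50.YL.Main2
import Pool.Agent.Helper50.YL.VolS

/-!
# YL-12: the local theorem with the sharp volume factor (assembly)
-/

namespace Pool.Agent.Helper50.YL

open scoped ContDiff Topology NNReal
open Pool.Agent.Helper49.Ric Pool.Agent.Helper73.HB Pool.Agent.Helper50.CF
  Pool.Agent.Helper50.CE Pool.Agent.Helper50.YF MeasureTheory Filter

noncomputable section

variable {n : ℕ} {u : (Fin n → ℝ) → ℝ}

/-- as `exists_main2`, with a bound `D` for `dd` -/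
theorem exists_mainD (n : ℕ) (hn : 3 ≤ n) : ∃ C Λ : ℝ, 1 ≤ C ∧ 1 ≤ Λ ∧
    ∀ {u : (Fin n → ℝ) → ℝ}, Flat n u → ∀ (x : Fin n → ℝ) {r D : ℝ}, 0 < r → Far u x (Λ * r) →
      0 ≤ D → (∀ z ∈ GB u x (2 * r), ∀ s : ℝ, 0 < s → Psi u z s ≤ 2 * r → dd u z s ≤ D) →
      ∫ p in GB u x r, sc u p ≤ C * D ^ (n - 3) * r := by
  obtain ⟨ε, C₁, hε, hC₁, hsm⟩ := exists_small n hn
  obtain ⟨C₂, Λ₁, hC₂, hΛ₁, htot⟩ := exists_total2 n hε
  obtain ⟨c, hc0, hfar⟩ := exists_psiFar n hn
  have hn1 : (1 : ℝ) ≤ n := by exact_mod_cast (by omega : 1 ≤ n)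
  have hD1 : 1 ≤ 20 * (n : ℝ) * C₁ * C₂ := by
    have h1 : 1 ≤ C₁ * C₂ := one_le_mul_of_one_le_of_one_le hC₁ hC₂
    nlinarith
  have hq : 0 < 2 * Λ₁ / c := by positivity
  refine ⟨20 * n * C₁ * C₂ * 2, 2 + 2 * Λ₁ / c, ?_, by linarith,
    fun {u} hu x r D hr hF hD0 hDD => ?_⟩
  · linarith
  have hρ : 0 < 2 * r := by linarith
  -- the compact set
  obtain ⟨K', hK', hGK'⟩ := hF
  have hle : r ≤ (2 + 2 * Λ₁ / c) * r := by nlinarith
  have hGK1 : GB u x r ⊆ K' := (GB_mono hle).trans hGK'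
  set K := closure (GB u x r) with hKd
  have hKc : IsCompact K := hK'.of_isClosed_subset isClosed_closure
    (closure_minimal hGK1 hK'.isClosed)
  have hKρ : K ⊆ GB u x (2 * r) := closure_GB hu.smooth x (by linarith)
  have hsK : ∫ p in GB u x r, sc u p ≤ ∫ p in K, sc u p :=
    sc_mono hu (sc_int hu.smooth hKc subset_rfl) subset_closure
  refine hsK.trans ?_
  -- `Psi` is large somewhere
  have hT : ∀ z ∈ K, ∃ T : ℝ, 0 ≤ T ∧ Λ₁ * (2 * r) ≤ Psi u z T := by
    intro z hz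
    have h1 : Far u z (2 * Λ₁ / c * r) := by
      refine ⟨K', hK', fun y hy => hGK' ?_⟩
      have h2 := GB_trans hu.smooth (hKρ hz) hy
      have e1 : 2 * r + 2 * Λ₁ / c * r = (2 + 2 * Λ₁ / c) * r := by ring
      rwa [e1] at h2
    obtain ⟨T, hT0, hT⟩ := hfar hu z (by positivity) h1
    refine ⟨T, hT0, ?_⟩
    have e2 : c * (2 * Λ₁ / c * r) = Λ₁ * (2 * r) := by field_simp
    rwa [e2] at hT
  -- the single piece bound
  have hdd2 : ∀ (z : Fin n → ℝ) (j : ℤ), good2 u ε (2 * r) z j →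
      dd u z (20 * n * 2 ^ j) ≤ 2 * r := fun z j hg =>
    (dd_le_psi hu.smooth.continuous z (by positivity)).trans hg.2
  have hddD : ∀ z ∈ K, ∀ j : ℤ, good2 u ε (2 * r) z j → dd u z (20 * n * 2 ^ j) ≤ D :=
    fun z hz j hg => hDD z (hKρ hz) _ (by positivity) hg.2
  have piece : ∀ z ∈ K, ∀ j : ℤ, good2 u ε (2 * r) z j →
      ∫ p in eball z (5 * n * 2 ^ j), sc u p ≤ C₁ * D ^ (n - 3) * dd u z (20 * n * 2 ^ j) := by
    intro z hz j hg
    have h1 := hsm hu z (r := 5 * n * 2 ^ j) (by positivity) hg.1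
    rw [show 4 * (5 * (n : ℝ) * 2 ^ j) = 20 * n * 2 ^ j by ring] at h1
    refine h1.trans ?_
    have h5 : 0 < dd u z (20 * n * 2 ^ j) := dd_pos u z (by positivity)
    have e1 : n - 2 = n - 3 + 1 := by omega
    rw [e1, pow_succ]
    calc C₁ * (dd u z (20 * n * 2 ^ j) ^ (n - 3) * dd u z (20 * n * 2 ^ j))
        ≤ C₁ * (D ^ (n - 3) * dd u z (20 * n * 2 ^ j)) := by
          refine mul_le_mul_of_nonneg_left ?_ (by linarith)
          exact mul_le_mul_of_nonneg_right (pow_le_pow_left₀ h5.le (hddD z hz j hg) _) h5.le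
      _ = C₁ * D ^ (n - 3) * dd u z (20 * n * 2 ^ j) := by ring
  -- a large scale
  obtain ⟨R, hR⟩ := hKc.isBounded.subset_closedBall (0 : Fin n → ℝ)
  obtain ⟨J, hJ⟩ : ∃ J : ℕ, 2 * |R| + 1 < 2 ^ J := pow_unbounded_of_one_lt _ (by norm_num)
  have hbig : ∀ z ∈ K, K ⊆ Metric.closedBall z ((2 : ℝ) ^ (J : ℤ)) := by
    intro z hz p hp
    have h1 := hR hz
    have h2 := hR hp
    rw [Metric.mem_closedBall] at h1 h2 ⊢
    have h3 : dist p z ≤ dist p 0 + dist z 0 := dist_triangle_right p z 0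
    rw [zpow_natCast]
    have h4 := le_abs_self R
    linarith
  have hDn : 0 ≤ D ^ (n - 3) := pow_nonneg hD0 _
  by_cases hA : ∃ z ∈ K, good2 u ε (2 * r) z J
  · obtain ⟨z, hz, hg⟩ := hA
    have h1 : K ⊆ eball z (5 * n * 2 ^ (J : ℤ)) :=
      (hbig z hz).trans (closedBall_sub (by omega) z (by positivity))
    refine (sc_mono hu (sc_int_eball hu.smooth z _) h1).trans ((piece z hz J hg).trans ?_)
    have h2 : dd u z (20 * n * 2 ^ (J : ℤ)) ≤ 2 * r := hdd2 z J hg
    calc C₁ * D ^ (n - 3) * dd u z (20 * n * 2 ^ (J : ℤ)) ≤ C₁ * D ^ (n - 3) * (2 * r) :=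
          mul_le_mul_of_nonneg_left h2 (mul_nonneg (by linarith) hDn)
      _ = C₁ * (D ^ (n - 3) * (2 * r)) := by ring
      _ ≤ (20 * n * C₁ * C₂) * (D ^ (n - 3) * (2 * r)) := by
          refine mul_le_mul_of_nonneg_right ?_ (by positivity)
          have h3 : 1 ≤ 20 * (n : ℝ) * C₂ := by nlinarith
          nlinarith
      _ = 20 * n * C₁ * C₂ * 2 * D ^ (n - 3) * r := by ring
  · push Not at hA
    -- stopping indices
    have hst : ∀ z ∈ K, ∃ j : ℤ, good2 u ε (2 * r) z j ∧ ¬ good2 u ε (2 * r) z (j + 1) :=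
      fun z hz => exists_stop2 hu hε hρ z J (hA z hz)
    choose! j hj using hst
    obtain ⟨s, hsK, hdis, hcov⟩ := exists_cover (by omega) hKc j
    have h1 : ∫ p in K, sc u p ≤ ∑ z ∈ s, ∫ p in eball z (5 * n * 2 ^ j z), sc u p :=
      sum_cover hu s (fun z => eball z (5 * n * 2 ^ j z))
        (fun z _ => (CP.isOpen_eball z _).measurableSet)
        (fun z _ => sc_int_eball hu.smooth z _) hcov
    refine h1.trans ?_
    have h2 := htot hu x hρ s (fun z => z) j (fun z hz => hKρ (hsK z hz))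
      (fun z hz => hT z (hsK z hz)) hdis (fun z hz => hj z (hsK z hz))
    have h3 : ∀ z ∈ s, ∫ p in eball z (5 * n * 2 ^ j z), sc u p ≤
        C₁ * D ^ (n - 3) * (20 * n) * dd u z (2 ^ j z) := by
      intro z hz
      have hg := (hj z (hsK z hz)).1
      refine (piece z (hsK z hz) (j z) hg).trans ?_
      have h6 : dd u z (20 * n * 2 ^ j z) ≤ 20 * n * dd u z (2 ^ j z) :=
        dd_scale hu.smooth.continuous z (by positivity) (by linarith)
      calc C₁ * D ^ (n - 3) * dd u z (20 * n * 2 ^ j z)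
          ≤ C₁ * D ^ (n - 3) * (20 * n * dd u z (2 ^ j z)) :=
            mul_le_mul_of_nonneg_left h6 (mul_nonneg (by linarith) hDn)
        _ = C₁ * D ^ (n - 3) * (20 * n) * dd u z (2 ^ j z) := by ring
    refine (Finset.sum_le_sum h3).trans ?_
    rw [← Finset.mul_sum]
    have h8 : C₁ * D ^ (n - 3) * (20 * n) * ∑ z ∈ s, dd u z (2 ^ j z) ≤
        C₁ * D ^ (n - 3) * (20 * n) * (C₂ * (2 * r)) :=
      mul_le_mul_of_nonneg_left h2 (by positivity)
    refine h8.trans (le_of_eq ?_)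
    ring

/-- the volume factor -/
theorem exists_main3 (n : ℕ) (hn : 3 ≤ n) : ∃ C Λ : ℝ, 1 ≤ C ∧ 1 ≤ Λ ∧
    ∀ {u : (Fin n → ℝ) → ℝ}, Flat n u → ∀ (x : Fin n → ℝ) {r : ℝ}, 0 < r → Far u x (Λ * r) →
      ∫ p in GB u x r, sc u p ≤ C * r ^ (n - 2) *
        (min 1 (ev u (GB u x (Λ * r)) / r ^ n)) ^ (((n : ℝ) - 3) / (n - 1)) := by
  obtain ⟨C, Λ₁, hC, hΛ₁, hmain⟩ := exists_mainD n hn
  obtain ⟨c, L, hc, hL, hvol⟩ := exists_volSum n hn
  obtain ⟨c', hc'0, hfar⟩ := exists_psiFar n hn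
  have hn3 : (3 : ℝ) ≤ n := by exact_mod_cast hn
  set Λ : ℝ := Λ₁ + 2 + L + 24 / c' with hΛ
  have h24 : 0 < 24 / c' := by positivity
  set q : ℝ := 1 / ((n : ℝ) - 1) with hq
  have hq0 : 0 < q := by
    rw [hq]
    exact one_div_pos.2 (by linarith)
  set A : ℝ := 2 + (1 / c) ^ q with hA
  have hcq : 0 < (1 / c) ^ q := Real.rpow_pos_of_pos (by positivity) _
  have hA0 : 1 ≤ A := by linarith
  refine ⟨C * A ^ (n - 3), Λ, one_le_mul_of_one_le_of_one_le hC (one_le_pow₀ hA0), by linarith,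
    fun {u} hu x r hr hF => ?_⟩
  have huc := hu.smooth.continuous
  obtain ⟨K, hK, hGK⟩ := hF
  set V : ℝ := ev u (GB u x (Λ * r)) with hV
  set y : ℝ := V / r ^ n with hy
  have hrn : 0 < r ^ n := pow_pos hr n
  have hfc : Continuous fun p => Real.exp (n * u p) := (continuous_const.mul huc).rexp
  have hGi : IntegrableOn (fun p => Real.exp (n * u p)) (GB u x (Λ * r)) :=
    (hfc.continuousOn.integrableOn_compact hK).mono_set hGK
  have hV0 : 0 ≤ V := ev_nonneg u _
  have hy0 : 0 ≤ y := div_nonneg hV0 hrn.le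
  set m : ℝ := min 1 y with hm
  have hm0 : 0 ≤ m := le_min zero_le_one hy0
  have hmq : 0 ≤ m ^ q := Real.rpow_nonneg hm0 _
  -- the bound for `dd`
  have hDD : ∀ z ∈ GB u x (2 * r), ∀ s : ℝ, 0 < s → Psi u z s ≤ 2 * r →
      dd u z s ≤ A * r * m ^ q := by
    intro z hz s hs hPs
    have h1 : dd u z s ≤ 2 * r := (dd_le_psi huc z hs.le).trans hPs
    have hd0 := dd_pos u z hs
    rcases le_total 1 y with hy1 | hy1
    · have : m = 1 := min_eq_left hy1
      rw [this, Real.one_rpow, mul_one]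
      nlinarith
    · have hmy : m = y := min_eq_right hy1
      -- the volume
      have hsub : ∀ t : ℝ, 2 + t ≤ Λ → GB u z (t * r) ⊆ GB u x (Λ * r) := by
        intro t ht y' hy'
        have h2 := GB_trans hu.smooth hz hy'
        refine GB_mono ?_ h2
        nlinarith
      have hFz : Far u z (L * r) := ⟨K, hK, (hsub L (by linarith)).trans hGK⟩
      have hFz' : Far u z (24 / c' * r) := ⟨K, hK, (hsub (24 / c') (by linarith)).trans hGK⟩
      obtain ⟨T, hT0, hT⟩ := hfar hu z (by positivity) hFz'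
      have e2 : c' * (24 / c' * r) = 24 * r := by field_simp
      rw [e2] at hT
      have h3 := hvol hu z hs hr hPs hT0 hT hFz
      have h4 : ev u (GB u z (L * r)) ≤ V :=
        setIntegral_mono_set hGi (Eventually.of_forall fun p => (Real.exp_pos _).le)
          (hsub L (by linarith)).eventuallyLE
      have h5 : c * dd u z s ^ (n - 1) * r ≤ y * r ^ n := by
        have e3 : y * r ^ n = V := by
          rw [hy]
          field_simp
        rw [e3]
        exact h3.trans h4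
      have h6 : dd u z s ^ (n - 1) ≤ (1 / c) * y * r ^ (n - 1) := by
        have e4 : r ^ n = r ^ (n - 1) * r := by
          rw [← pow_succ]
          congr 1
          omega
        rw [e4, ← mul_assoc] at h5
        have h7 : c * dd u z s ^ (n - 1) ≤ y * r ^ (n - 1) := le_of_mul_le_mul_right h5 hr
        have h8 := mul_le_mul_of_nonneg_left h7 (by positivity : 0 ≤ 1 / c)
        calc dd u z s ^ (n - 1) = 1 / c * (c * dd u z s ^ (n - 1)) := by field_simp
          _ ≤ 1 / c * (y * r ^ (n - 1)) := h8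
          _ = 1 / c * y * r ^ (n - 1) := by ring
      have hn1 : ((n - 1 : ℕ) : ℝ) = (n : ℝ) - 1 := by
        rw [Nat.cast_sub (by omega)]
        simp
      have hpow : ∀ t : ℝ, 0 ≤ t → (t ^ (n - 1)) ^ q = t := by
        intro t ht
        rw [← Real.rpow_natCast, ← Real.rpow_mul ht, hn1, hq, mul_one_div_cancel (by linarith),
          Real.rpow_one]
      have h9 := Real.rpow_le_rpow (by positivity) h6 hq0.le
      rw [hpow _ hd0.le, Real.mul_rpow (by positivity) (by positivity), hpow _ hr.le,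
        Real.mul_rpow (by positivity) hy0] at h9
      rw [hmy]
      have h10 : 0 ≤ y ^ q := Real.rpow_nonneg hy0 _
      have h11 : 0 ≤ 2 * r * y ^ q := by positivity
      calc dd u z s ≤ (1 / c) ^ q * y ^ q * r := h9
        _ ≤ (1 / c) ^ q * y ^ q * r + 2 * r * y ^ q := by linarith
        _ = A * r * y ^ q := by
          rw [hA]
          ring
  have hFar : Far u x (Λ₁ * r) := ⟨K, hK, (GB_mono (by nlinarith)).trans hGK⟩
  have h := hmain hu x hr hFar (D := A * r * m ^ q) (by positivity) hDD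
  refine h.trans (le_of_eq ?_)
  have e5 : (m ^ q) ^ (n - 3) = m ^ (((n : ℝ) - 3) / (n - 1)) := by
    rw [← Real.rpow_natCast, ← Real.rpow_mul hm0, Nat.cast_sub hn, hq]
    congr 1
    push_cast
    ring
  have e6 : r ^ (n - 2) = r ^ (n - 3) * r := by
    rw [← pow_succ]
    congr 1
    omega
  rw [mul_pow, mul_pow, e5, e6]
  ring

/-- the local form of Yau's bound with the volume factor -/
theorem exists_yau3 (hn : 3 ≤ n) : ∃ C Λ : ℝ, ∀ u : (Fin n → ℝ) → ℝ, ContDiff ℝ ∞ u →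
    NonnegRicci (conf u) → ∀ (x : Fin n → ℝ) (r : ℝ), 0 < r →
      (∃ K : Set (Fin n → ℝ), IsCompact K ∧ gball Set.univ (conf u) x (Λ * r) ⊆ K) →
      IntegrableOn (fun p => scal (conf u) p * Real.sqrt (conf u p).det)
        (gball Set.univ (conf u) x r) ∧
      ∫ p in gball Set.univ (conf u) x r, scal (conf u) p * Real.sqrt (conf u p).det ≤
        C * r ^ (n - 2) * (min 1 (gvol (conf u) (gball Set.univ (conf u) x (Λ * r)) / r ^ n)) ^
          (((n : ℝ) - 3) / (n - 1)) := by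
  obtain ⟨C, Λ, -, hΛ, H⟩ := exists_main3 n hn
  refine ⟨C, Λ, fun u hu hR x r hr hF => ?_⟩
  have hflat := flat_of hn hu hR
  have e1 : (fun p => scal (conf u) p * Real.sqrt (conf u p).det) = sc u := by
    funext p
    exact scal_conf hu.contDiffAt
  rw [e1, gvol_eq]
  obtain ⟨K, hK, hs⟩ := hF
  have hle : r ≤ Λ * r := by nlinarith
  have hs' : GB u x r ⊆ K := (GB_mono hle).trans hs
  exact ⟨sc_int hu hK hs', H hflat x hr ⟨K, hK, hs⟩⟩

end

end Pool.Agent.Helper50.YL
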