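import Pool.Agent.Helper50.YL.Main3
import Pool.Agent.Helper50.YL.Comp

/-!
# YL-15: the bound with the volume of the ball itself (assembly)
-/

namespace Pool.Agent.Helper50.YL

open scoped ContDiff Topology NNReal
open Pool.Agent.Helper49.Ric Pool.Agent.Helper73.HB Pool.Agent.Helper50.CF
  Pool.Agent.Helper50.CE Pool.Agent.Helper50.YF MeasureTheory Filter

noncomputable section

variable {n : ℕ} {u : (Fin n → ℝ) → ℝ}

theorem exists_main4 (n : ℕ) (hn : 3 ≤ n) : ∃ C Λ : ℝ, 1 ≤ C ∧ 1 ≤ Λ ∧
    ∀ {u : (Fin n → ℝ) → ℝ}, Flat n u → ∀ (x : Fin n → ℝ) {r : ℝ}, 0 < r → Far u x (Λ * r) →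
      ∫ p in GB u x r, sc u p ≤ C * r ^ (n - 2) *
        (min 1 (ev u (GB u x r) / r ^ n)) ^ (((n : ℝ) - 3) / (n - 1)) := by
  obtain ⟨C, Λ₁, hC, hΛ₁, hmain⟩ := exists_mainD n hn
  obtain ⟨c, L, hc, hL, hvol⟩ := exists_volSum n hn
  obtain ⟨c', hc'0, hfar⟩ := exists_psiFar n hn
  obtain ⟨B, hB, hcomp⟩ := exists_comp n hn
  have hn3 : (3 : ℝ) ≤ n := by exact_mod_cast hn
  have h24 : 0 < 24 / c' := by positivity
  set Λ : ℝ := Λ₁ + 2 + 24 / c' with hΛ
  set q : ℝ := 1 / ((n : ℝ) - 1) with hq
  have hq0 : 0 < q := by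
    rw [hq]
    exact one_div_pos.2 (by linarith)
  have hL0 : 0 < L := by linarith
  set δ : ℝ := 1 / L with hδ
  have hδ0 : 0 < δ := by positivity
  have hδ1 : δ ≤ 1 := by
    rw [hδ, div_le_one hL0]
    exact hL
  set A : ℝ := 2 + B / δ * (L / c) ^ q with hA
  have hcq : 0 < (L / c) ^ q := Real.rpow_pos_of_pos (by positivity) _
  have hBδ : 0 < B / δ := by positivity
  have hA2 : 2 ≤ A := by
    have := mul_pos hBδ hcq
    linarith
  have hA0 : 1 ≤ A := by linarith
  refine ⟨C * A ^ (n - 3), Λ, one_le_mul_of_one_le_of_one_le hC (one_le_pow₀ hA0), by linarith,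
    fun {u} hu x r hr hF => ?_⟩
  have huc := hu.smooth.continuous
  obtain ⟨K, hK, hGK⟩ := hF
  set V : ℝ := ev u (GB u x r) with hV
  set y : ℝ := V / r ^ n with hy
  have hrn : 0 < r ^ n := pow_pos hr n
  have hV0 : 0 ≤ V := ev_nonneg u _
  have hy0 : 0 ≤ y := div_nonneg hV0 hrn.le
  set m : ℝ := min 1 y with hm
  have hm0 : 0 ≤ m := le_min zero_le_one hy0
  have hmq : 0 ≤ m ^ q := Real.rpow_nonneg hm0 _
  have hFt : ∀ t : ℝ, t ≤ Λ → Far u x (t * r) := fun t ht =>
    ⟨K, hK, (GB_mono (mul_le_mul_of_nonneg_right ht hr.le)).trans hGK⟩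
  -- the bound for `dd`
  have hDD : ∀ z ∈ GB u x (2 * r), ∀ s : ℝ, 0 < s → Psi u z s ≤ 2 * r →
      dd u z s ≤ A * r * m ^ q := by
    intro z hz s hs hPs
    have h1 : dd u z s ≤ 2 * r := (dd_le_psi huc z hs.le).trans hPs
    have hd0 := dd_pos u z hs
    rcases le_total 1 y with hy1 | hy1
    · have : m = 1 := min_eq_left hy1
      rw [this, Real.one_rpow, mul_one]
      exact h1.trans (mul_le_mul_of_nonneg_right hA2 hr.le)
    · have hmy : m = y := min_eq_right hy1
      -- `Psi u z` is large somewhere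
      have hFz : Far u z (24 / c' * r) := by
        refine ⟨K, hK, fun y' hy' => hGK ?_⟩
        have h2 := GB_trans hu.smooth hz hy'
        refine GB_mono ?_ h2
        nlinarith
      obtain ⟨T, hT0, hT⟩ := hfar hu z (by positivity) hFz
      have e2 : c' * (24 / c' * r) = 24 * r := by field_simp
      rw [e2] at hT
      obtain ⟨t, ht0, hPt, hdt⟩ := hcomp hu x z hs hr hz hPs hT0 hT hδ0 hδ1
      -- the volume of the ball about `x`
      obtain ⟨T', hT'0, hT'⟩ := hfar hu x (L := 24 / c' * r) (by positivity)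
        (hFt (24 / c') (by linarith))
      rw [e2] at hT'
      have hrL : 0 < r / L := by positivity
      have hrL1 : r / L ≤ r := div_le_self hr.le hL
      have hLr : L * (r / L) = r := by field_simp
      have h3 := hvol hu x (s := t) (r := r / L) (T := T') ht0 hrL
        (by
          have e3 : δ * r = r / L := by
            rw [hδ]
            ring
          rw [e3] at hPt
          linarith) hT'0 (by linarith)
        (by
          rw [hLr]
          have := hFt 1 (by linarith)
          rwa [one_mul] at this)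
      rw [hLr] at h3
      have hdt0 := dd_pos u x ht0
      have h5 : c * dd u x t ^ (n - 1) * (r / L) ≤ y * r ^ n := by
        have e3 : y * r ^ n = V := by
          rw [hy]
          field_simp
        rw [e3]
        exact h3
      have h6 : dd u x t ^ (n - 1) ≤ (L / c) * y * r ^ (n - 1) := by
        have e4 : r ^ n = r ^ (n - 1) * r := by
          rw [← pow_succ]
          congr 1
          omega
        rw [e4, ← mul_assoc] at h5
        have h7 : c * dd u x t ^ (n - 1) / L ≤ y * r ^ (n - 1) := by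
          refine le_of_mul_le_mul_right ?_ hr
          refine le_of_eq_of_le ?_ h5
          ring
        have h8 := mul_le_mul_of_nonneg_left h7 (by positivity : 0 ≤ L / c)
        calc dd u x t ^ (n - 1) = L / c * (c * dd u x t ^ (n - 1) / L) := by field_simp
          _ ≤ L / c * (y * r ^ (n - 1)) := h8
          _ = L / c * y * r ^ (n - 1) := by ring
      have hn1 : ((n - 1 : ℕ) : ℝ) = (n : ℝ) - 1 := by
        rw [Nat.cast_sub (by omega)]
        simp
      have hpow : ∀ t : ℝ, 0 ≤ t → (t ^ (n - 1)) ^ q = t := by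
        intro t ht
        rw [← Real.rpow_natCast, ← Real.rpow_mul ht, hn1, hq, mul_one_div_cancel (by linarith),
          Real.rpow_one]
      have h9 := Real.rpow_le_rpow (by positivity) h6 hq0.le
      rw [hpow _ hdt0.le, Real.mul_rpow (by positivity) (by positivity), hpow _ hr.le,
        Real.mul_rpow (by positivity) hy0] at h9
      rw [hmy]
      have h10 : 0 ≤ y ^ q := Real.rpow_nonneg hy0 _
      have h11 : 0 ≤ 2 * r * y ^ q := by positivity
      calc dd u z s ≤ B / δ * dd u x t := hdt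
        _ ≤ B / δ * ((L / c) ^ q * y ^ q * r) := mul_le_mul_of_nonneg_left h9 hBδ.le
        _ ≤ B / δ * ((L / c) ^ q * y ^ q * r) + 2 * r * y ^ q := by linarith
        _ = A * r * y ^ q := by
          rw [hA]
          ring
  have hFar : Far u x (Λ₁ * r) := hFt Λ₁ (by linarith)
  have h := hmain hu x hr hFar (D := A * r * m ^ q) (by positivity) hDD
  refine h.trans (le_of_eq ?_)
  have e5 : (m ^ q) ^ (n - 3) = m ^ (((n : ℝ) - 3) / (n - 1)) := by
    rw [← Real.rpow_natCast, ← Real.rpow_mul hm0, Nat.cast_sub hn, hq]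
    congr 1
    push_cast
    ring
  have e6 : r ^ (n - 2) = r ^ (n - 3) * r := by
    rw [← pow_succ]
    congr 1
    omega
  rw [mul_pow, mul_pow, e5, e6]
  ring

/-- Yau's bound with the volume factor, local form -/
theorem exists_yau4 (hn : 3 ≤ n) : ∃ C Λ : ℝ, ∀ u : (Fin n → ℝ) → ℝ, ContDiff ℝ ∞ u →
    NonnegRicci (conf u) → ∀ (x : Fin n → ℝ) (r : ℝ), 0 < r →
      (∃ K : Set (Fin n → ℝ), IsCompact K ∧ gball Set.univ (conf u) x (Λ * r) ⊆ K) →
      IntegrableOn (fun p => scal (conf u) p * Real.sqrt (conf u p).det)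
        (gball Set.univ (conf u) x r) ∧
      ∫ p in gball Set.univ (conf u) x r, scal (conf u) p * Real.sqrt (conf u p).det ≤
        C * r ^ (n - 2) * (min 1 (gvol (conf u) (gball Set.univ (conf u) x r) / r ^ n)) ^
          (((n : ℝ) - 3) / (n - 1)) := by
  obtain ⟨C, Λ, -, hΛ, H⟩ := exists_main4 n hn
  refine ⟨C, Λ, fun u hu hR x r hr hF => ?_⟩
  have hflat := flat_of hn hu hR
  have e1 : (fun p => scal (conf u) p * Real.sqrt (conf u p).det) = sc u := by
    funext p
    exact scal_conf hu.contDiffAt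
  rw [e1, gvol_eq]
  obtain ⟨K, hK, hs⟩ := hF
  have hle : r ≤ Λ * r := by nlinarith
  have hs' : GB u x r ⊆ K := (GB_mono hle).trans hs
  exact ⟨sc_int hu hK hs', H hflat x hr ⟨K, hK, hs⟩⟩

end

end Pool.Agent.Helper50.YL
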