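import Pool.Agent.Helper50.YF.Three

/-!
# YL-13: `dd u z t / Psi u z t` is nonincreasing

`log (dd u z t)` is concave in `log t` (`three_circles`).  For `t < s` let
`k = log (dd s / dd t) / log (s / t)`.  If `k ≤ 0` clear.  If `k > 0`: `dd τ ≤ dd t (τ/t)^k` for `τ ≤ t`, so
`Psi t ≤ dd t / k`, and `dd τ ≥ dd t (τ/t)^k` on `[t,s]`, so `Psi s - Psi t ≥ (dd s - dd t)/k`.
-/

namespace Pool.Agent.Helper50.YL

open scoped ContDiff Topology NNReal
open Pool.Agent.Helper49.Ric Pool.Agent.Helper73.HB Pool.Agent.Helper50.CF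
  Pool.Agent.Helper50.CE Pool.Agent.Helper50.YF MeasureTheory Filter

noncomputable section

variable {n : ℕ} {u : (Fin n → ℝ) → ℝ}

/-- `log (dd u z t)` is concave in `log t` -/
private theorem logc (h : Flat n u) (z : Fin n → ℝ) {a b c : ℝ} (ha : 0 < a) (hab : a ≤ b)
    (hbc : b ≤ c) :
    (Real.log a + mn u z a) * (Real.log c - Real.log b) +
        (Real.log c + mn u z c) * (Real.log b - Real.log a) ≤
      (Real.log b + mn u z b) * (Real.log c - Real.log a) := by
  have hb : 0 < b := ha.trans_le hab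
  have hc : 0 < c := hb.trans_le hbc
  rcases hab.eq_or_lt with rfl | hab
  · exact le_of_eq (by ring)
  rcases hbc.eq_or_lt with rfl | hbc
  · exact le_of_eq (by ring)
  have h1 := three_circles h z ha hab hbc
  rw [Real.log_div hc.ne' hb.ne', Real.log_div hb.ne' ha.ne', Real.log_div hc.ne' ha.ne'] at h1
  have h2 : Real.log a * (Real.log c - Real.log b) + Real.log c * (Real.log b - Real.log a) =
      Real.log b * (Real.log c - Real.log a) := by ring
  linarith

theorem ratio (h : Flat n u) (z : Fin n → ℝ) {r₁ r₂ : ℝ} (h1 : 0 < r₁) (h2 : r₁ ≤ r₂) :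
    dd u z r₂ * Psi u z r₁ ≤ dd u z r₁ * Psi u z r₂ := by
  have hu : Continuous u := h.smooth.continuous
  have hr2 : 0 < r₂ := h1.trans_le h2
  have hD1 : 0 < dd u z r₁ := dd_pos u z h1
  have hD2 : 0 < dd u z r₂ := dd_pos u z hr2
  have hP1 : 0 ≤ Psi u z r₁ := psi_nonneg hu z h1.le
  have hP12 : Psi u z r₁ ≤ Psi u z r₂ := psi_mono hu z h1.le h2
  rcases le_total (dd u z r₂) (dd u z r₁) with hle | hcon
  · exact mul_le_mul hle hP12 hP1 hD1.le
  rcases h2.eq_or_lt with e | hlt
  · rw [e]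
  rcases hcon.eq_or_lt with e | hcon
  · rw [← e]
    exact mul_le_mul_of_nonneg_left hP12 hD1.le
  set l₁ := Real.log r₁ with hl1
  set l₂ := Real.log r₂ with hl2
  have hl : l₁ < l₂ := Real.log_lt_log h1 hlt
  set e₁ := l₁ + mn u z r₁ with he1
  set e₂ := l₂ + mn u z r₂ with he2
  have hx1 : dd u z r₁ = Real.exp e₁ := by
    rw [he1, Real.exp_add, hl1, Real.exp_log h1]
    rfl
  have hx2 : dd u z r₂ = Real.exp e₂ := by
    rw [he2, Real.exp_add, hl2, Real.exp_log hr2]
    rfl
  have he : e₁ < e₂ := by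
    have h4 : Real.exp e₁ < Real.exp e₂ := by
      rw [← hx1, ← hx2]
      exact hcon
    exact Real.exp_lt_exp.1 h4
  set k := (e₂ - e₁) / (l₂ - l₁) with hk
  have hkpos : 0 < k := div_pos (by linarith) (by linarith)
  have hkl : k * (l₂ - l₁) = e₂ - e₁ := div_mul_cancel₀ _ (by linarith)
  -- the comparison function
  set g : ℝ → ℝ := fun t => Real.exp (e₁ - k * l₁) * t ^ (k - 1) with hg
  have hgt : ∀ t, 0 < t → g t = Real.exp (e₁ - k * l₁ + (k - 1) * Real.log t) := by
    intro t ht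
    rw [hg]
    simp only
    rw [Real.rpow_def_of_pos ht, ← Real.exp_add]
    congr 1
    ring
  have hup : ∀ t, 0 < t → t ≤ r₁ → Real.exp (mn u z t) ≤ g t := by
    intro t ht0 ht
    rw [hgt t ht0, Real.exp_le_exp]
    have h4 := logc h z ht0 ht h2
    rw [← hl1, ← hl2, ← he1, ← he2] at h4
    have h5 : (Real.log t + mn u z t) * (l₂ - l₁) ≤
        (e₁ + k * (Real.log t - l₁)) * (l₂ - l₁) := by
      have h6 : (e₁ + k * (Real.log t - l₁)) * (l₂ - l₁) =
          e₁ * (l₂ - l₁) + (k * (l₂ - l₁)) * (Real.log t - l₁) := by ring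
      rw [h6, hkl]
      linarith
    have h7 := le_of_mul_le_mul_right h5 (by linarith)
    linarith
  have hlo : ∀ t, r₁ ≤ t → t ≤ r₂ → g t ≤ Real.exp (mn u z t) := by
    intro t ht1 ht2
    have ht0 : 0 < t := h1.trans_le ht1
    rw [hgt t ht0, Real.exp_le_exp]
    have h4 := logc h z h1 ht1 ht2
    rw [← hl1, ← hl2, ← he1, ← he2] at h4
    have h5 : (e₁ + k * (Real.log t - l₁)) * (l₂ - l₁) ≤
        (Real.log t + mn u z t) * (l₂ - l₁) := by
      have h6 : (e₁ + k * (Real.log t - l₁)) * (l₂ - l₁) =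
          e₁ * (l₂ - l₁) + (k * (l₂ - l₁)) * (Real.log t - l₁) := by ring
      rw [h6, hkl]
      linarith
    have h7 := le_of_mul_le_mul_right h5 (by linarith)
    linarith
  -- the integral of the comparison function
  have hgint : ∀ a b, ∫ t in a..b, g t = Real.exp (e₁ - k * l₁) * (b ^ k - a ^ k) / k := by
    intro a b
    rw [hg]
    simp only
    rw [intervalIntegral.integral_const_mul, integral_rpow (Or.inl (by linarith))]
    have h4 : k - 1 + 1 = k := by ring
    rw [h4]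
    ring
  have hgii : ∀ a b, IntervalIntegrable g volume a b := fun a b =>
    (intervalIntegral.intervalIntegrable_rpow' (by linarith)).const_mul _
  have hp : ∀ a, 0 < a → Real.exp (e₁ - k * l₁) * a ^ k =
      Real.exp (e₁ - k * l₁ + k * Real.log a) := by
    intro a ha
    rw [Real.rpow_def_of_pos ha, ← Real.exp_add]
    congr 1
    ring
  have hp1 : Real.exp (e₁ - k * l₁) * r₁ ^ k = dd u z r₁ := by
    rw [hp r₁ h1, hx1]
    congr 1
    rw [← hl1]
    ring
  have hp2 : Real.exp (e₁ - k * l₁) * r₂ ^ k = dd u z r₂ := by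
    rw [hp r₂ hr2, hx2]
    congr 1
    rw [← hl2]
    linarith
  -- upper bound for `Psi r₁`
  have hupp : Psi u z r₁ ≤ dd u z r₁ / k := by
    have h6 : Psi u z r₁ ≤ ∫ t in (0 : ℝ)..r₁, g t := by
      unfold Psi
      rw [intervalIntegral.integral_of_le h1.le, intervalIntegral.integral_of_le h1.le]
      refine setIntegral_mono_on ?_ ?_ measurableSet_Ioc fun t ht => hup t ht.1 ht.2
      · exact (intervalIntegrable_iff_integrableOn_Ioc_of_le h1.le).1
          (psi_intervalIntegrable hu z le_rfl h1.le)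
      · exact (intervalIntegrable_iff_integrableOn_Ioc_of_le h1.le).1 (hgii 0 r₁)
    rw [hgint 0 r₁, Real.zero_rpow hkpos.ne', sub_zero, hp1] at h6
    exact h6
  -- lower bound for the increment
  have hlow : (dd u z r₂ - dd u z r₁) / k ≤ Psi u z r₂ - Psi u z r₁ := by
    rw [psi_diff hu z h1.le h2]
    have h6 : ∫ t in r₁..r₂, g t ≤ ∫ t in r₁..r₂, Real.exp (mn u z t) :=
      intervalIntegral.integral_mono_on h2 (hgii r₁ r₂)
        (psi_intervalIntegrable hu z h1.le hr2.le) fun t ht => hlo t ht.1 ht.2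
    rw [hgint r₁ r₂, mul_sub, hp1, hp2] at h6
    exact h6
  have hdiff : 0 ≤ dd u z r₂ - dd u z r₁ := by linarith
  have h8 : dd u z r₁ * ((dd u z r₂ - dd u z r₁) / k) ≤
      dd u z r₁ * (Psi u z r₂ - Psi u z r₁) := mul_le_mul_of_nonneg_left hlow hD1.le
  have h9 : (dd u z r₂ - dd u z r₁) * Psi u z r₁ ≤ (dd u z r₂ - dd u z r₁) * (dd u z r₁ / k) :=
    mul_le_mul_of_nonneg_left hupp hdiff
  have h10 : (dd u z r₂ - dd u z r₁) * (dd u z r₁ / k) =
      dd u z r₁ * ((dd u z r₂ - dd u z r₁) / k) := by ring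
  linarith

end

end Pool.Agent.Helper50.YL
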