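import Pool.Agent.Helper50.YF.WH
import Pool.Agent.Helper50.YF.RayU
import Pool.Agent.Helper50.YF.Mn

/-!
# YL-2: the average length of the rays from `z` is at most `C Psi`
-/

namespace Pool.Agent.Helper50.YL

open scoped ContDiff Topology NNReal
open Pool.Agent.Helper49.Ric Pool.Agent.Helper73.HB Pool.Agent.Helper50.CF
  Pool.Agent.Helper50.CE Pool.Agent.Helper50.YF MeasureTheory Filter

noncomputable section

variable {n : ℕ} {u : (Fin n → ℝ) → ℝ}

private theorem Qs_sub (i₀ : Fin n) : Qs i₀ ⊆ B n 3 := by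
  intro q hq
  have h0 : ∑ i, (q i - (Pi.single i₀ 2 : Fin n → ℝ) i) ^ 2 < 1 ^ 2 := hq
  have h1 : (q i₀ - (Pi.single i₀ 2 : Fin n → ℝ) i₀) ^ 2 ≤
      ∑ i, (q i - (Pi.single i₀ 2 : Fin n → ℝ) i) ^ 2 :=
    Finset.single_le_sum (f := fun i => (q i - (Pi.single i₀ 2 : Fin n → ℝ) i) ^ 2)
      (fun i _ => sq_nonneg _) (Finset.mem_univ i₀)
  rw [Pi.single_eq_same] at h1
  have h2 : ∑ i, q i ^ 2 - ∑ i, (q i - (Pi.single i₀ 2 : Fin n → ℝ) i) ^ 2 = 4 * q i₀ - 4 := by
    rw [← Finset.sum_sub_distrib, Finset.sum_eq_single i₀]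
    · rw [Pi.single_eq_same]
      ring
    · intro j _ hj
      rw [Pi.single_eq_of_ne hj]
      ring
    · simp
  show ∑ i, q i ^ 2 < 3 ^ 2
  have h3 : q i₀ < 3 := by nlinarith
  linarith

private theorem int_prod (i₀ : Fin n) (hu : ContDiff ℝ ∞ u) (a : Fin n → ℝ) (T : ℝ) :
    Integrable (Function.uncurry fun (q : Fin n → ℝ) (t : ℝ) => Real.exp (u (a + t • q)))
      ((volume.restrict (Qs i₀)).prod (volume.restrict (Set.Ioc 0 T))) := by
  rw [Measure.prod_restrict]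
  have hc : Continuous (Function.uncurry
      fun (q : Fin n → ℝ) (t : ℝ) => Real.exp (u (a + t • q))) := by
    have := hu.continuous
    simp only [Function.uncurry_def]
    fun_prop
  have hK : IsCompact (ecball (Pi.single i₀ 2 : Fin n → ℝ) 1 ×ˢ Set.Icc (0 : ℝ) T) :=
    (CF.isCompact_ecball _ _).prod isCompact_Icc
  exact (hc.continuousOn.integrableOn_compact hK).mono_set
    (Set.prod_mono (CF.eball_subset_ecball _ _) Set.Ioc_subset_Icc_self)

private theorem slice_le (i₀ : Fin n) (hu : ContDiff ℝ ∞ u) (a : Fin n → ℝ) {t : ℝ}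
    (ht : 0 < t) :
    ∫ q in Qs i₀, Real.exp (u (a + t • q)) ≤
      (t ^ n)⁻¹ * ∫ y in eball a (3 * t), Real.exp (u y) := by
  rw [← setIntegral_dil (fun y => Real.exp (u y)) a ht 3]
  refine setIntegral_mono_set ?_ (Eventually.of_forall fun x => (Real.exp_pos _).le)
    (Qs_sub i₀).eventuallyLE
  have hc : Continuous fun x : Fin n → ℝ => Real.exp (u (a + t • x)) := by
    have := hu.continuous
    fun_prop
  have h1 : B n 3 ⊆ ecball (0 : Fin n → ℝ) 3 := by
    intro x hx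
    have h2 : ∑ i, x i ^ 2 < 3 ^ 2 := hx
    show ∑ i, (x i - (0 : Fin n → ℝ) i) ^ 2 ≤ 3 ^ 2
    simp only [Pi.zero_apply, sub_zero]
    exact h2.le
  exact (hc.continuousOn.integrableOn_compact (CF.isCompact_ecball _ _)).mono_set h1

theorem exists_rayAv (n : ℕ) (hn : 3 ≤ n) : ∃ C : ℝ, 1 ≤ C ∧ ∀ {u : (Fin n → ℝ) → ℝ},
    Flat n u → ∀ (i₀ : Fin n) (z : Fin n → ℝ) {T : ℝ}, 0 ≤ T →
      ∫ q in Qs i₀, (∫ t in (0 : ℝ)..T, Real.exp (u (z + t • q))) ≤ C * Psi u z T := by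
  obtain ⟨C, hC, hwh⟩ := exists_wh n hn
  refine ⟨C * 3 ^ n, one_le_mul_of_one_le_of_one_le hC (one_le_pow₀ (by norm_num)), ?_⟩
  intro u hu i₀ z T hT
  have hc := hu.smooth.continuous
  have h1 : ∫ q in Qs i₀, (∫ t in (0 : ℝ)..T, Real.exp (u (z + t • q))) =
      ∫ t in Set.Ioc 0 T, ∫ q in Qs i₀, Real.exp (u (z + t • q)) := by
    simp only [intervalIntegral.integral_of_le hT]
    exact integral_integral_swap (int_prod i₀ hu.smooth z T)
  have hP : Psi u z T = ∫ t in Set.Ioc 0 T, Real.exp (mn u z t) := by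
    unfold Psi
    rw [intervalIntegral.integral_of_le hT]
  rw [h1, hP, ← integral_const_mul]
  have hi : IntegrableOn (fun t => Real.exp (mn u z t)) (Set.Ioc 0 T) :=
    (intervalIntegrable_iff_integrableOn_Ioc_of_le hT).1 (psi_intervalIntegrable hc z le_rfl hT)
  refine setIntegral_mono_on (int_prod i₀ hu.smooth z T).integral_prod_right
    (hi.const_mul _) measurableSet_Ioc fun t ht => ?_
  have ht0 : 0 < t := ht.1
  have h2 := slice_le i₀ hu.smooth z ht0
  have h3 := hwh hu z (R := 3 * t) (by linarith)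
  have h4 : (t ^ n)⁻¹ * ∫ y in eball z (3 * t), Real.exp (u y) ≤
      (t ^ n)⁻¹ * (C * (3 * t) ^ n * Real.exp (mn u z (3 * t))) :=
    mul_le_mul_of_nonneg_left h3 (by positivity)
  have h5 : (t ^ n)⁻¹ * (C * (3 * t) ^ n * Real.exp (mn u z (3 * t))) =
      C * 3 ^ n * Real.exp (mn u z (3 * t)) := by
    rw [mul_pow]
    field_simp
  have h6 : Real.exp (mn u z (3 * t)) ≤ Real.exp (mn u z t) :=
    Real.exp_le_exp.2 (mn_anti hc z ht0.le (by linarith))
  exact h2.trans (h4.trans (h5.le.trans (mul_le_mul_of_nonneg_left h6 (by positivity))))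

end

end Pool.Agent.Helper50.YL
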