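import Pool.Agent.Helper50.YF.SumC
import Pool.Agent.Helper50.YF.Path
import Pool.Agent.Helper50.YL.Quasi
import Pool.Agent.Helper50.YL.Defs

/-!
# YL-6: the sum over a star, local version

PROOF. As `YF/Star.lean` with `quasi` in place of `Mon`: `λ = 120 n² + 1`, `Λ₁ = 2 λ + 1`.
`dd u (z i) (2^{j i}) ≤ 2 dd u (z i) (λ 2^{j i})` by `quasi` (`r₁ = 2^{j i}`, `r₂ = λ 2^{j i}`, `M = Λ₁ ρ`):
`2 Psi u (z i) (λ 2^{j i}) ≤ 2 λ Psi u (z i) (2^{j i}) ≤ 2 λ ρ < Λ₁ ρ` (`psi_scale`).  The term `i = g`: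
`dd ≤ Psi ≤ ρ` (`dd_le_psi`).
-/

namespace Pool.Agent.Helper50.YL

open scoped ContDiff Topology NNReal
open Pool.Agent.Helper49.Ric Pool.Agent.Helper73.HB Pool.Agent.Helper50.CF
  Pool.Agent.Helper50.CE Pool.Agent.Helper50.YF MeasureTheory Filter

noncomputable section

variable {n : ℕ} {u : (Fin n → ℝ) → ℝ}

private theorem ed_self (p : Fin n → ℝ) : CP.ed p p = 0 := by
  unfold CP.ed
  simp

private theorem dist_le_ed (p q : Fin n → ℝ) : dist p q ≤ CP.ed p q := by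
  rw [dist_pi_le_iff (CP.ed_nonneg p q)]
  intro i
  rw [Real.dist_eq]
  unfold CP.ed
  refine Real.abs_le_sqrt ?_
  exact Finset.single_le_sum (f := fun i => (p i - q i) ^ 2) (fun i _ => sq_nonneg _)
    (Finset.mem_univ i)

private theorem ed_le_dist (hn : 1 ≤ n) (p q : Fin n → ℝ) : CP.ed p q ≤ n * dist p q := by
  unfold CP.ed
  have hn' : (1 : ℝ) ≤ n := by exact_mod_cast hn
  refine Real.sqrt_le_iff.2 ⟨by positivity, ?_⟩
  have h1 : ∀ i ∈ (Finset.univ : Finset (Fin n)), (p i - q i) ^ 2 ≤ (dist p q) ^ 2 := by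
    intro i _
    have h2 : |p i - q i| ≤ dist p q := by
      rw [← Real.dist_eq]
      exact dist_le_pi_dist p q i
    calc (p i - q i) ^ 2 = |p i - q i| ^ 2 := (sq_abs _).symm
      _ ≤ (dist p q) ^ 2 := pow_le_pow_left₀ (abs_nonneg _) h2 2
  have h3 := Finset.sum_le_sum h1
  rw [Finset.sum_const, Finset.card_univ, Fintype.card_fin, nsmul_eq_mul] at h3
  refine h3.trans ?_
  have h4 : (0 : ℝ) ≤ (dist p q) ^ 2 := sq_nonneg _
  have h5 : (n : ℝ) ≤ (n : ℝ) ^ 2 := by nlinarith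
  calc (n : ℝ) * dist p q ^ 2 ≤ (n : ℝ) ^ 2 * dist p q ^ 2 := mul_le_mul_of_nonneg_right h5 h4
    _ = (n * dist p q) ^ 2 := by ring

theorem exists_star2 (n : ℕ) : ∃ C Λ₁ : ℝ, 1 ≤ C ∧ 1 ≤ Λ₁ ∧ ∀ {u : (Fin n → ℝ) → ℝ},
    Flat n u → ∀ (x₀ : Fin n → ℝ) {ρ : ℝ}, 0 < ρ →
    ∀ {ι : Type} (s : Finset ι) (z : ι → Fin n → ℝ) (j : ι → ℤ), (∀ i ∈ s, z i ∈ GB u x₀ ρ) →
      (∀ i ∈ s, ∃ T : ℝ, 0 ≤ T ∧ Λ₁ * ρ ≤ Psi u (z i) T) →
      (∀ i ∈ s, ∀ i' ∈ s, i ≠ i' → Disjoint (Metric.closedBall (z i) ((2 : ℝ) ^ j i))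
        (Metric.closedBall (z i') ((2 : ℝ) ^ j i'))) →
      (∀ i ∈ s, Psi u (z i) (2 ^ j i) ≤ ρ) →
      ∀ g ∈ s, (∀ i ∈ s, dist (z i) (z g) ≤ 120 * n * 2 ^ j i) →
        ∑ i ∈ s, dd u (z i) (2 ^ j i) ≤ C * ρ := by
  classical
  refine ⟨1 + 8 * (120 * (n : ℝ) ^ 2 + 1) * (120 * (n : ℝ) + 1) ^ n,
    2 * (120 * (n : ℝ) ^ 2 + 1) + 1, ?_, ?_, ?_⟩
  · have : (0 : ℝ) ≤ 8 * (120 * (n : ℝ) ^ 2 + 1) * (120 * (n : ℝ) + 1) ^ n := by positivity
    linarith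
  · have : (0 : ℝ) ≤ 120 * (n : ℝ) ^ 2 := by positivity
    linarith
  intro u hF x₀ ρ hρ ι s z j hz hfar hd hD g hg hK
  have hu : ContDiff ℝ ∞ u := hF.smooth
  have huc : Continuous u := hu.continuous
  have hn3 : 3 ≤ n := hF.hn
  have hn : 1 ≤ n := by omega
  have hsplit : ∑ i ∈ s, dd u (z i) (2 ^ j i) =
      ∑ i ∈ s.erase g, dd u (z i) (2 ^ j i) + dd u (z g) (2 ^ j g) :=
    (Finset.sum_erase_add s _ hg).symm
  have hgρ : dd u (z g) (2 ^ j g) ≤ ρ :=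
    (dd_le_psi huc (z g) (by positivity)).trans (hD g hg)
  have hlam : (1 : ℝ) ≤ 120 * (n : ℝ) ^ 2 + 1 := by
    have : (0 : ℝ) ≤ 120 * (n : ℝ) ^ 2 := by positivity
    linarith
  -- the terms of the rest of the star
  have hterm : ∀ i ∈ s.erase g, dd u (z i) (2 ^ j i) ≤
      2 * (120 * (n : ℝ) ^ 2 + 1) * ((2 : ℝ) ^ j i * Real.exp (mn u (z g) (2 ^ j i))) := by
    intro i hi
    have his : i ∈ s := Finset.mem_of_mem_erase hi
    have hr : (0 : ℝ) < 2 ^ j i := by positivity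
    have h1 : dd u (z i) (2 ^ j i) ≤ 2 * dd u (z i) ((120 * (n : ℝ) ^ 2 + 1) * 2 ^ j i) := by
      obtain ⟨T, hT, hT'⟩ := hfar i his
      refine quasi hF (z i) hT hT' hr (le_mul_of_one_le_left hr.le hlam) ?_
      have h7 := psi_scale huc (z i) hr.le hlam
      have h8 : (120 * (n : ℝ) ^ 2 + 1) * Psi u (z i) (2 ^ j i) ≤ (120 * (n : ℝ) ^ 2 + 1) * ρ :=
        mul_le_mul_of_nonneg_left (hD i his) (by linarith)
      linarith
    have h2 : CP.ed (z g) (z i) ≤ 120 * (n : ℝ) ^ 2 * 2 ^ j i := by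
      have h3 := ed_le_dist hn (z g) (z i)
      have h4 := hK i his
      rw [dist_comm] at h4
      calc CP.ed (z g) (z i) ≤ n * dist (z g) (z i) := h3
        _ ≤ n * (120 * n * 2 ^ j i) := mul_le_mul_of_nonneg_left h4 (Nat.cast_nonneg n)
        _ = 120 * (n : ℝ) ^ 2 * 2 ^ j i := by ring
    have h5 : ecball (z g) (2 ^ j i) ⊆ ecball (z i) ((120 * (n : ℝ) ^ 2 + 1) * 2 ^ j i) := by
      have ht : (0 : ℝ) ≤ 120 * (n : ℝ) ^ 2 * 2 ^ j i := by positivity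
      refine CP.ecball_sub hr.le ht ((CP.mem_ecball ht).2 h2) ?_
      exact le_of_eq (by ring)
    have h6 := mn_sub huc h5
    refine h1.trans ?_
    unfold dd
    rw [mul_assoc, mul_assoc]
    refine mul_le_mul_of_nonneg_left ?_ (by norm_num)
    refine mul_le_mul_of_nonneg_left ?_ (by positivity)
    exact mul_le_mul_of_nonneg_left (Real.exp_le_exp.2 h6) hr.le
  have hrest : ∑ i ∈ s.erase g, dd u (z i) (2 ^ j i) ≤
      8 * (120 * (n : ℝ) ^ 2 + 1) * (120 * (n : ℝ) + 1) ^ n * ρ := by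
    rcases (s.erase g).eq_empty_or_nonempty with he | hne
    · rw [he, Finset.sum_empty]
      positivity
    · obtain ⟨i₀, hi₀, hmax⟩ := Finset.exists_max_image (s.erase g) (fun i => (2 : ℝ) ^ j i) hne
      have hi₀s : i₀ ∈ s := Finset.mem_of_mem_erase hi₀
      have hi₀g : i₀ ≠ g := Finset.ne_of_mem_erase hi₀
      have hr₀ : (0 : ℝ) < 2 ^ j i₀ := by positivity
      have hsc := sum_central (s.erase g) z j (z g) (K := 120 * (n : ℝ)) (R := (2 : ℝ) ^ j i₀)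
        (by positivity) hr₀.le (psi_antitone huc (z g)) (fun t _ => (Real.exp_pos _).le)
        (fun i hi i' hi' => hd i (Finset.mem_of_mem_erase hi) i' (Finset.mem_of_mem_erase hi'))
        (fun i hi => hK i (Finset.mem_of_mem_erase hi)) hmax
      -- the size of the largest radius
      have hlt : (2 : ℝ) ^ j i₀ ≤ CP.ed (z i₀) (z g) := by
        refine le_trans ?_ (dist_le_ed _ _)
        by_contra hcon
        have h7 : z g ∈ Metric.closedBall (z i₀) ((2 : ℝ) ^ j i₀) := by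
          rw [Metric.mem_closedBall, dist_comm]
          exact (not_le.1 hcon).le
        have h8 : z g ∈ Metric.closedBall (z g) ((2 : ℝ) ^ j g) :=
          Metric.mem_closedBall_self (by positivity)
        exact Set.disjoint_left.1 (hd i₀ hi₀s g hg hi₀g) h7 h8
      have hp1 := psi_path hu (z g) (hz i₀ hi₀s)
      have hp2 := psi_path hu (z g) (hz g hg)
      rw [ed_self, psi_zero] at hp2
      have hm := psi_mono huc (z g) hr₀.le hlt
      rw [abs_le] at hp1 hp2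
      have hpsi : Psi u (z g) (2 ^ j i₀) ≤ 2 * ρ := by linarith [hp1.2, hp2.1]
      have hI : ∫ t in (0 : ℝ)..(2 : ℝ) ^ j i₀, Real.exp (mn u (z g) t) ≤ 2 * ρ := hpsi
      calc ∑ i ∈ s.erase g, dd u (z i) (2 ^ j i)
          ≤ ∑ i ∈ s.erase g, 2 * (120 * (n : ℝ) ^ 2 + 1) *
              ((2 : ℝ) ^ j i * Real.exp (mn u (z g) (2 ^ j i))) := Finset.sum_le_sum hterm
        _ = 2 * (120 * (n : ℝ) ^ 2 + 1) * ∑ i ∈ s.erase g,
              ((2 : ℝ) ^ j i * Real.exp (mn u (z g) (2 ^ j i))) := by rw [Finset.mul_sum]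
        _ ≤ 2 * (120 * (n : ℝ) ^ 2 + 1) * (2 * (120 * (n : ℝ) + 1) ^ n *
              ∫ t in (0 : ℝ)..(2 : ℝ) ^ j i₀, Real.exp (mn u (z g) t)) :=
            mul_le_mul_of_nonneg_left hsc (by positivity)
        _ ≤ 2 * (120 * (n : ℝ) ^ 2 + 1) * (2 * (120 * (n : ℝ) + 1) ^ n * (2 * ρ)) := by
            gcongr
        _ = 8 * (120 * (n : ℝ) ^ 2 + 1) * (120 * (n : ℝ) + 1) ^ n * ρ := by ring
  rw [hsplit]
  calc ∑ i ∈ s.erase g, dd u (z i) (2 ^ j i) + dd u (z g) (2 ^ j g)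
      ≤ 8 * (120 * (n : ℝ) ^ 2 + 1) * (120 * (n : ℝ) + 1) ^ n * ρ + ρ := add_le_add hrest hgρ
    _ = (1 + 8 * (120 * (n : ℝ) ^ 2 + 1) * (120 * (n : ℝ) + 1) ^ n) * ρ := by ring

end

end Pool.Agent.Helper50.YL
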