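import Pool.Agent.Helper50.YL.RayAv
import Pool.Agent.Helper50.YF.RayC
import Pool.Agent.Helper50.YF.Mn

/-!
# YL-10: the volume of an annulus

Most points of the cone `z + T Qs` are at geodesic distance at most `L Psi u z T` from `z`
(`exists_rayAv`), and `u ≥ mn u z (3T)` there: the volume of the part of the Euclidean annulus
`T < |p - z| < 3T` inside this geodesic ball is at least `c dd u z (3T)^n`.
-/

namespace Pool.Agent.Helper50.YL

open scoped ContDiff Topology NNReal
open Pool.Agent.Helper49.Ric Pool.Agent.Helper73.HB Pool.Agent.Helper50.CF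
  Pool.Agent.Helper50.CE Pool.Agent.Helper50.YF MeasureTheory Filter

noncomputable section

variable {n : ℕ} {u : (Fin n → ℝ) → ℝ}

/-- the Euclidean annulus -/
def Ann (z : Fin n → ℝ) (T : ℝ) : Set (Fin n → ℝ) := {p | T < CP.ed p z ∧ CP.ed p z < 3 * T}

private theorem one_lt {i₀ : Fin n} {q : Fin n → ℝ} (hq : q ∈ Qs i₀) :
    1 < Real.sqrt (∑ i, q i ^ 2) := by
  have h0 : ∑ i, (q i - (Pi.single i₀ 2 : Fin n → ℝ) i) ^ 2 < 1 ^ 2 := hq
  have h1 : (q i₀ - (Pi.single i₀ 2 : Fin n → ℝ) i₀) ^ 2 ≤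
      ∑ i, (q i - (Pi.single i₀ 2 : Fin n → ℝ) i) ^ 2 :=
    Finset.single_le_sum (f := fun i => (q i - (Pi.single i₀ 2 : Fin n → ℝ) i) ^ 2)
      (fun i _ => sq_nonneg _) (Finset.mem_univ i₀)
  rw [Pi.single_eq_same] at h1
  have h2 : 1 < q i₀ := by nlinarith
  have h3 : q i₀ ^ 2 ≤ ∑ i, q i ^ 2 :=
    Finset.single_le_sum (f := fun i => q i ^ 2) (fun i _ => sq_nonneg _) (Finset.mem_univ i₀)
  rw [Real.lt_sqrt (by norm_num)]
  nlinarith

private theorem lt_three {i₀ : Fin n} {q : Fin n → ℝ} (hq : q ∈ Qs i₀) :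
    Real.sqrt (∑ i, q i ^ 2) < 3 := by
  have h1 : CP.ed q (Pi.single i₀ 2) < 1 := (CP.mem_eball one_pos).1 hq
  have h2 : CP.ed (Pi.single i₀ 2 : Fin n → ℝ) 0 = 2 := by
    unfold CP.ed
    have : ∑ i, ((Pi.single i₀ 2 : Fin n → ℝ) i - (0 : Fin n → ℝ) i) ^ 2 = 2 ^ 2 := by
      rw [Finset.sum_eq_single i₀]
      · simp
      · intro j _ hj
        simp [Pi.single_eq_of_ne hj]
      · simp
    rw [this]
    exact Real.sqrt_sq (by norm_num)
  have h3 := CP.ed_triangle q (Pi.single i₀ 2) 0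
  have h4 : CP.ed q 0 = Real.sqrt (∑ i, q i ^ 2) := by
    unfold CP.ed
    simp
  linarith

private theorem ed_dil (z q : Fin n → ℝ) {T : ℝ} (hT : 0 < T) :
    CP.ed (z + T • q) z = T * Real.sqrt (∑ i, q i ^ 2) := by
  unfold CP.ed
  have h4 : ∑ i, ((z + T • q) i - z i) ^ 2 = T ^ 2 * ∑ i, q i ^ 2 := by
    rw [Finset.mul_sum]
    refine Finset.sum_congr rfl fun i _ => ?_
    simp only [Pi.add_apply, Pi.smul_apply, smul_eq_mul]
    ring
  rw [h4, Real.sqrt_mul (by positivity), Real.sqrt_sq hT.le]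

theorem isOpen_Ann (z : Fin n → ℝ) (T : ℝ) : IsOpen (Ann z T) := by
  have hc : Continuous fun p : Fin n → ℝ => CP.ed p z := by
    unfold CP.ed
    exact Continuous.sqrt (by fun_prop)
  exact (isOpen_lt continuous_const hc).inter (isOpen_lt hc continuous_const)

theorem isOpen_GB (hu : ContDiff ℝ ∞ u) (x : Fin n → ℝ) (r : ℝ) : IsOpen (GB u x r) :=
  isOpen_gball isOpen_univ (isMetricOn_conf hu)

theorem exists_volAnn (n : ℕ) (hn : 3 ≤ n) : ∃ c L : ℝ, 0 < c ∧ 1 ≤ L ∧
    ∀ {u : (Fin n → ℝ) → ℝ}, Flat n u → ∀ (z : Fin n → ℝ) {T : ℝ}, 0 < T →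
      c * dd u z (3 * T) ^ n ≤ ev u (GB u z (L * Psi u z T) ∩ Ann z T) := by
  obtain ⟨C, hC1, hC⟩ := exists_rayAv n hn
  set i₀ : Fin n := ⟨0, by omega⟩ with hi₀
  have hopen : IsOpen (Qs i₀) := CP.isOpen_eball _ _
  have hne : (Qs i₀).Nonempty := ⟨Pi.single i₀ 2, by
    show ∑ i, ((Pi.single i₀ 2 : Fin n → ℝ) i - (Pi.single i₀ 2 : Fin n → ℝ) i) ^ 2 < 1 ^ 2
    simp⟩
  have hcpt := CP.isCompact_ecball' (Pi.single i₀ 2 : Fin n → ℝ) 1
  have hsub : Qs i₀ ⊆ ecball (Pi.single i₀ 2) 1 := CP.eball_subset_ecball' _ _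
  have hfin : volume (Qs i₀) < ⊤ := lt_of_le_of_lt (measure_mono hsub) hcpt.measure_lt_top
  have hv : 0 < volume.real (Qs i₀) :=
    ENNReal.toReal_pos (hopen.measure_pos volume hne).ne' hfin.ne
  set v := volume.real (Qs i₀) with hvdef
  have hCpos : 0 < C := by linarith
  refine ⟨v / 2 * ((3 : ℝ) ^ n)⁻¹, 6 * C / v + 1, by positivity, ?_, ?_⟩
  · have : 0 ≤ 6 * C / v := by positivity
    linarith
  intro u hu z T hT
  have huc := hu.smooth.continuous
  set P : ℝ := Psi u z T with hP
  have hP0 : 0 < P := lt_of_lt_of_le (dd_pos u z hT) (dd_le_psi huc z hT.le)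
  set F : (Fin n → ℝ) → ℝ := fun q => ∫ t in (0 : ℝ)..T, Real.exp (u (z + t • q)) with hF
  have hcont : Continuous F := cont_ray huc z T
  have hF0 : ∀ q, 0 ≤ F q := fun q =>
    intervalIntegral.integral_nonneg hT.le fun t _ => (Real.exp_pos _).le
  have hint : IntegrableOn F (Qs i₀) :=
    (hcont.continuousOn.integrableOn_compact hcpt).mono_set hsub
  have hav : ∫ q in Qs i₀, F q ≤ C * P := hC hu i₀ z hT.le
  -- the good and the bad directions
  set b : ℝ := 2 * C / v * P with hb
  have hb0 : 0 < b := by positivity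
  set Qb : Set (Fin n → ℝ) := Qs i₀ ∩ {q | b < F q} with hQb
  set Qg : Set (Fin n → ℝ) := Qs i₀ ∩ {q | F q ≤ b} with hQg
  have mb : MeasurableSet Qb := (hopen.inter (isOpen_lt continuous_const hcont)).measurableSet
  have mg : MeasurableSet Qg :=
    hopen.measurableSet.inter (isClosed_le hcont continuous_const).measurableSet
  have hfb : volume Qb < ⊤ := lt_of_le_of_lt (measure_mono Set.inter_subset_left) hfin
  have hfg : volume Qg < ⊤ := lt_of_le_of_lt (measure_mono Set.inter_subset_left) hfin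
  have hbad : volume.real Qb * b ≤ C * P := by
    have h1 : ∫ _q in Qb, b ≤ ∫ q in Qb, F q :=
      setIntegral_mono_on (integrableOn_const hfb.ne) (hint.mono_set Set.inter_subset_left) mb
        fun q hq => le_of_lt hq.2
    have h2 : ∫ q in Qb, F q ≤ ∫ q in Qs i₀, F q :=
      setIntegral_mono_set hint (Eventually.of_forall hF0) Set.inter_subset_left.eventuallyLE
    rw [setIntegral_const, smul_eq_mul] at h1
    linarith
  have hbad' : volume.real Qb ≤ v / 2 := by
    have e : v / 2 * b = C * P := by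
      rw [hb]
      field_simp
    rw [← e] at hbad
    exact le_of_mul_le_mul_right hbad hb0
  have hgood : v / 2 ≤ volume.real Qg := by
    have h1 : Qs i₀ ⊆ Qb ∪ Qg := fun q hq => by
      rcases lt_or_ge b (F q) with h | h
      · exact Or.inl ⟨hq, h⟩
      · exact Or.inr ⟨hq, h⟩
    have h2 : v ≤ volume.real (Qb ∪ Qg) :=
      measureReal_mono h1 (measure_union_lt_top hfb hfg).ne
    have h3 := measureReal_union_le (μ := volume) Qb Qg
    linarith
  -- the set of the points
  set A : Set (Fin n → ℝ) := GB u z ((6 * C / v + 1) * P) ∩ Ann z T with hA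
  have hAo : IsOpen A := (isOpen_GB hu.smooth z _).inter (isOpen_Ann z T)
  have hAe : A ⊆ eball z (3 * T) := fun p hp => by
    rw [CP.mem_eball (by linarith)]
    exact hp.2.2
  have hmem : ∀ q ∈ Qg, z + T • q ∈ A := by
    intro q hq
    refine ⟨?_, ?_, ?_⟩
    · have hlen : curveLength (conf u)
          (fun s : ℝ => z + (0 + s * (T - 0)) • q) < (6 * C / v + 1) * P := by
        rw [seg_length' huc z q 0 T, intervalIntegral.integral_same, sub_zero,
          abs_of_nonneg (hF0 q)]
        have h1 : Real.sqrt (∑ i, q i ^ 2) * F q ≤ 3 * b :=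
          mul_le_mul (lt_three hq.1).le hq.2 (hF0 q) (by norm_num)
        have h2 : 3 * b = 6 * C / v * P := by
          rw [hb]
          ring
        refine lt_of_le_of_lt h1 ?_
        rw [h2, add_mul, one_mul]
        linarith
      refine ⟨fun s : ℝ => z + (0 + s * (T - 0)) • q, by fun_prop, by simp, ?_,
        fun t _ => Set.mem_univ _, hlen⟩
      show z + (0 + 1 * (T - 0)) • q = z + T • q
      rw [zero_add, sub_zero, one_mul]
    · rw [ed_dil z q hT]
      nlinarith [one_lt hq.1]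
    · rw [ed_dil z q hT]
      nlinarith [lt_three hq.1]
  -- change of variables
  have hfc : Continuous fun p => Real.exp (n * u p) := (continuous_const.mul huc).rexp
  have hAi : IntegrableOn (fun p => Real.exp (n * u p)) A :=
    ((hfc.continuousOn.integrableOn_compact (CP.isCompact_ecball' z (3 * T))).mono_set
      (hAe.trans (CP.eball_subset_ecball' _ _)))
  have hdil := integral_dil (A.indicator fun p => Real.exp (n * u p)) z hT
  rw [integral_indicator hAo.measurableSet] at hdil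
  have hgi : Integrable (fun x => A.indicator (fun p => Real.exp (n * u p)) (z + T • x)) := by
    have h1 : Integrable (A.indicator fun p => Real.exp (n * u p)) :=
      (integrable_indicator_iff hAo.measurableSet).2 hAi
    have h2 : Integrable (fun x => A.indicator (fun p => Real.exp (n * u p)) (z + x)) :=
      h1.comp_add_left z
    exact h2.comp_smul hT.ne'
  have hlow : Real.exp (n * mn u z (3 * T)) * volume.real Qg ≤
      ∫ x, A.indicator (fun p => Real.exp (n * u p)) (z + T • x) := by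
    have h1 : ∫ x in Qg, Real.exp (n * mn u z (3 * T)) =
        Real.exp (n * mn u z (3 * T)) * volume.real Qg := by
      rw [setIntegral_const, smul_eq_mul, mul_comm]
    rw [← h1]
    have h2 : ∫ x in Qg, Real.exp (n * mn u z (3 * T)) ≤
        ∫ x in Qg, A.indicator (fun p => Real.exp (n * u p)) (z + T • x) := by
      refine setIntegral_mono_on (integrableOn_const hfg.ne) hgi.integrableOn mg fun q hq => ?_
      rw [Set.indicator_of_mem (hmem q hq)]
      refine Real.exp_le_exp.2 (mul_le_mul_of_nonneg_left ?_ (Nat.cast_nonneg n))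
      refine mn_le huc ((CP.eball_subset_ecball' _ _) (hAe (hmem q hq)))
    refine h2.trans (setIntegral_le_integral hgi (Eventually.of_forall fun x => ?_))
    exact Set.indicator_nonneg (fun _ _ => (Real.exp_pos _).le) _
  rw [hdil] at hlow
  have hTn : 0 < T ^ n := pow_pos hT n
  have hE : 0 < Real.exp (n * mn u z (3 * T)) := Real.exp_pos _
  have h5 : T ^ n * (Real.exp (n * mn u z (3 * T)) * (v / 2)) ≤ ev u A := by
    have h6 : Real.exp (n * mn u z (3 * T)) * (v / 2) ≤ (T ^ n)⁻¹ * ev u A :=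
      (mul_le_mul_of_nonneg_left hgood hE.le).trans hlow
    calc T ^ n * (Real.exp (n * mn u z (3 * T)) * (v / 2)) ≤ T ^ n * ((T ^ n)⁻¹ * ev u A) :=
          mul_le_mul_of_nonneg_left h6 hTn.le
      _ = ev u A := by rw [← mul_assoc, mul_inv_cancel₀ hTn.ne', one_mul]
  refine le_of_eq_of_le ?_ h5
  unfold dd
  rw [mul_pow, mul_pow, ← Real.exp_nat_mul]
  have h3n : (3 : ℝ) ^ n ≠ 0 := by positivity
  field_simp

end

end Pool.Agent.Helper50.YL
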